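import Pool.Agent.H66.SO.Stm
import Pool.Agent.Lead.BR.T.CV2

/-! SO-CNV: the converse (helper72) -/

set_option autoImplicit false

namespace Pool.Agent.H66.SO.T.CNV

open TopologicalSpace Metric Filter Topology
open Pool.Agent.Lead.BR (Tr Sm NF Bo Orth Pairs Hilb)
open Pool.Agent.Lead.BR.T.CV1 (bo_of_inner inner_zero)
open Pool.Agent.Lead.BR.T.CV2 (bo_map exists_pair closed_orth closed_pairs)

theorem main : S_CNV := by
  rintro E _ _ _ hrk ⟨H, _, _, _, ⟨Φ⟩⟩
  have hrk' : 1 < Module.rank ℝ H := by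
    rw [← Φ.toLinearEquiv.rank_eq]; exact hrk
  obtain ⟨a, b, ha, hb, hab⟩ := exists_pair hrk'
  set x : E := Φ.symm a with hx
  set y : E := Φ.symm b with hy
  have hx1 : ‖x‖ = 1 := by rw [hx, Φ.symm.norm_map, ha]
  have hy1 : ‖y‖ = 1 := by rw [hy, Φ.symm.norm_map, hb]
  have hxy : Bo x y := bo_map Φ.symm hab
  -- the orthogonality is symmetric
  have sym : ∀ u v : E, ‖v‖ = 1 → Bo u v → Bo v u := by
    intro u v hv huv
    have h1 : Bo (Φ v) (Φ u) := by
      apply bo_of_inner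
      rw [real_inner_comm]
      exact inner_zero (by rw [Φ.norm_map, hv]) (bo_map Φ huv)
    have h2 := bo_map Φ.symm h1
    rwa [Φ.symm_apply_apply, Φ.symm_apply_apply] at h2
  have hc1 : CompleteSpace (Orth x) := (closed_orth x).completeSpace_coe
  have hc2 : CompleteSpace (Pairs E) := (closed_pairs E).completeSpace_coe
  refine ⟨⟨x, hx1, ?_⟩, ?_⟩
  · have h1 : {z : Orth x | Bo (z : E) x} = Set.univ := by
      rw [Set.eq_univ_iff_forall]
      intro z
      exact sym x z z.2.1 z.2.2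
    rw [h1]
    have : Nonempty (Orth x) := ⟨⟨y, hy1, hxy⟩⟩
    exact not_isMeagre_of_isOpen isOpen_univ Set.univ_nonempty
  · have h1 : {q : Pairs E | Bo q.1.2 q.1.1} = Set.univ := by
      rw [Set.eq_univ_iff_forall]
      intro q
      exact sym q.1.1 q.1.2 q.2.2.1 q.2.2.2
    rw [h1]
    have : Nonempty (Pairs E) := ⟨⟨(x, y), hx1, hy1, hxy⟩⟩
    exact not_isMeagre_of_isOpen isOpen_univ Set.univ_nonempty

end Pool.Agent.H66.SO.T.CNV
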