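import Pool.Agent.H66.SO.Stm2
import Pool.Agent.Lead.BR.T.CV2

/-! SO-CNW: the converse for orthogonal decompositions (helper51) -/

set_option autoImplicit false

namespace Pool.Agent.H66.SO.T.CNW

open TopologicalSpace Metric Filter Topology
open Pool.Agent.Lead.BR (Tr Sm NF Bo Orth Pairs Hilb)
open Pool.Agent.Lead.BR.T.CV1 (bo_of_inner)
open Pool.Agent.Lead.BR.T.CV2 (bo_map exists_pair)

theorem main : S_CNW := by
  rintro E _ _ _ hrk ⟨H, _, _, _, ⟨Φ⟩⟩
  have hrk' : 1 < Module.rank ℝ H := by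
    rw [← Φ.toLinearEquiv.rank_eq]; exact hrk
  obtain ⟨a, b, ha, hb, hab⟩ := exists_pair hrk'
  set x : E := Φ.symm a with hx
  have hx1 : ‖x‖ = 1 := by rw [hx, Φ.symm.norm_map, ha]
  have hc : CompleteSpace (sphere (0 : E) 1) := isClosed_sphere.completeSpace_coe
  refine ⟨x, hx1, ?_⟩
  have h1 : {y : sphere (0 : E) 1 | Dec x (y : E)} = Set.univ := by
    rw [Set.eq_univ_iff_forall]
    rintro ⟨y, hy⟩
    have hy1 : ‖y‖ = 1 := by simpa using hy
    have hΦy : ‖Φ y‖ = 1 := by rw [Φ.norm_map, hy1]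
    set t : ℝ := inner ℝ (Φ y) (Φ x) with ht
    have h0 : inner ℝ (Φ y) (Φ x - t • Φ y) = 0 := by
      rw [inner_sub_right, inner_smul_right, real_inner_self_eq_norm_sq, hΦy, ← ht]
      ring
    have h0' : inner ℝ (Φ x - t • Φ y) (Φ y) = 0 := by
      rw [real_inner_comm]
      exact h0
    have e : Φ.symm (Φ x - t • Φ y) = x - t • y := by
      rw [← map_smul, ← map_sub, Φ.symm_apply_apply]
    refine ⟨t, ?_, ?_⟩
    · have h2 := bo_map Φ.symm (bo_of_inner h0)
      rwa [e, Φ.symm_apply_apply] at h2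
    · have h2 := bo_map Φ.symm (bo_of_inner h0')
      rwa [e, Φ.symm_apply_apply] at h2
  rw [h1]
  have : Nonempty (sphere (0 : E) 1) := ⟨⟨x, by simpa using hx1⟩⟩
  exact not_isMeagre_of_isOpen isOpen_univ Set.univ_nonempty

end Pool.Agent.H66.SO.T.CNW
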