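import Pool.Agent.H66.SO.Stm
import Pool.Agent.Lead.BR.T.CONT

/-! # SO-DIF (helper71) -/

set_option autoImplicit false

namespace Pool.Agent.H66.SO.T.DIF

open TopologicalSpace Metric Filter Topology
open Pool.Agent.Lead.BR (Tr Sm NF Bo Orth Pairs Hilb)

theorem main : S_DIF := by
  intro E _ _ D hS hD y v hy
  have hnorm : ∀ x : E, x ≠ 0 → ∀ w : E, D x w ≤ ‖w‖ := by
    intro x hx w
    have h1 := (D x).le_opNorm w
    have h2 := (hD x hx).1
    rw [Real.norm_eq_abs] at h1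
    nlinarith [le_abs_self (D x w), norm_nonneg w]
  rw [hasDerivAt_iff_isLittleO]
  rw [Asymptotics.isLittleO_iff]
  intro ε hε
  obtain ⟨δ, hδ, hcon⟩ := Pool.Agent.Lead.BR.T.CON.main E D hS hD y v hy ε hε
  have hcont : Tendsto (fun t : ℝ => y + t • v) (𝓝 0) (𝓝 y) := by
    have : Continuous (fun t : ℝ => y + t • v) := by fun_prop
    have h := this.tendsto 0
    simpa using h
  have h1 : ∀ᶠ t : ℝ in 𝓝 0, ‖(y + t • v) - y‖ < δ := by
    have := Metric.tendsto_nhds.1 hcont δ hδ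
    filter_upwards [this] with t ht
    rwa [dist_eq_norm] at ht
  have h2 : ∀ᶠ t : ℝ in 𝓝 0, y + t • v ≠ 0 := hcont (isOpen_ne.mem_nhds hy)
  filter_upwards [h1, h2] with t ht1 ht2
  have h3 := hcon _ ht1
  have h4 := hnorm y hy (y + t • v)
  have h5 := hnorm _ ht2 y
  have h6 := (hD y hy).2
  have h7 := (hD _ ht2).2
  rw [map_add, map_smul, smul_eq_mul, h6] at h4
  have h8 : D (y + t • v) y = ‖y + t • v‖ - t * D (y + t • v) v := by
    rw [← h7, map_add, map_smul, smul_eq_mul]; ring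
  rw [h8] at h5
  simp only [zero_smul, add_zero, sub_zero, smul_eq_mul, Real.norm_eq_abs]
  have h9 : ‖y + t • v‖ - ‖y‖ - t * D y v ≤ t * (D (y + t • v) v - D y v) := by linarith
  have h10 : 0 ≤ ‖y + t • v‖ - ‖y‖ - t * D y v := by linarith
  rw [abs_of_nonneg h10]
  calc _ ≤ t * (D (y + t • v) v - D y v) := h9
    _ ≤ |t * (D (y + t • v) v - D y v)| := le_abs_self _
    _ = |t| * |D (y + t • v) v - D y v| := abs_mul _ _
    _ ≤ |t| * ε := mul_le_mul_of_nonneg_left h3.le (abs_nonneg _)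
    _ = ε * |t| := mul_comm _ _

end Pool.Agent.H66.SO.T.DIF
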