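import Pool.Agent.H66.SO.T.DIF

/-! # SO-EQN (helper62) -/

set_option autoImplicit false

namespace Pool.Agent.H66.SO.T.EQN

open TopologicalSpace Metric Filter Topology
open Pool.Agent.Lead.BR (Tr Sm NF Bo Orth Pairs Hilb)

/-- four point difference -/
theorem fourpt (f a b : ℝ → ℝ → ℝ) (h : ℝ) (hh : 0 < h)
    (ha : ∀ s ∈ Set.Icc 0 h, ∀ t ∈ Set.Icc 0 h, HasDerivAt (fun s' => f s' t) (a s t) s)
    (hb : ∀ s ∈ Set.Icc 0 h, ∀ t ∈ Set.Icc 0 h, HasDerivAt (fun t' => f s t') (b s t) t) :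
    ∃ ξ ∈ Set.Ioo 0 h, ∃ η ∈ Set.Ioo 0 h, a ξ h - a ξ 0 = b h η - b 0 η := by
  have h0 : (0:ℝ) ∈ Set.Icc 0 h := ⟨le_rfl, hh.le⟩
  have h1 : h ∈ Set.Icc 0 h := ⟨hh.le, le_rfl⟩
  obtain ⟨ξ, hξ, e1⟩ := exists_hasDerivAt_eq_slope (fun s => f s h - f s 0)
    (fun s => a s h - a s 0) hh
    (fun s hs => ((ha s hs h h1).sub (ha s hs 0 h0)).continuousAt.continuousWithinAt)
    (fun s hs => (ha s (Set.Ioo_subset_Icc_self hs) h h1).sub
      (ha s (Set.Ioo_subset_Icc_self hs) 0 h0))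
  obtain ⟨η, hη, e2⟩ := exists_hasDerivAt_eq_slope (fun t => f h t - f 0 t)
    (fun t => b h t - b 0 t) hh
    (fun t ht => ((hb h h1 t ht).sub (hb 0 h0 t ht)).continuousAt.continuousWithinAt)
    (fun t ht => (hb h h1 t (Set.Ioo_subset_Icc_self ht)).sub
      (hb 0 h0 t (Set.Ioo_subset_Icc_self ht)))
  refine ⟨ξ, hξ, η, hη, ?_⟩
  rw [e1, e2]
  congr 1
  ring

section
variable {E : Type} [NormedAddCommGroup E] [NormedSpace ℝ E]

theorem pos (D : E → StrongDual ℝ E) (hD : NF D) (y0 : E) (ρ : ℝ) (μ : E → ℝ)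
    (T : E →ₗ[ℝ] StrongDual ℝ E) (hy0 : ‖y0‖ = 1) (hρ4 : ρ ≤ 1 / 4)
    (hp : ∀ y : E, ‖y - y0‖ < ρ → 0 < μ y ∧ μ y • D y = T y) (z : E) (hz : ‖z - y0‖ < ρ) :
    z ≠ 0 ∧ T z z = μ z * ‖z‖ ∧ 0 < T z z := by
  have hz0 : z ≠ 0 := by
    rintro rfl
    rw [zero_sub, norm_neg, hy0] at hz
    linarith
  obtain ⟨h1, h2⟩ := hp z hz
  have h3 : T z z = μ z * ‖z‖ := by
    rw [← h2, smul_apply, smul_eq_mul, (hD z hz0).2]
  exact ⟨hz0, h3, by rw [h3]; exact mul_pos h1 (norm_pos_iff.2 hz0)⟩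

theorem der (D : E → StrongDual ℝ E) (hS : Sm E) (hD : NF D) (y0 : E) (ρ : ℝ) (μ : E → ℝ)
    (T : E →ₗ[ℝ] StrongDual ℝ E) (hy0 : ‖y0‖ = 1) (hρ4 : ρ ≤ 1 / 4)
    (hp : ∀ y : E, ‖y - y0‖ < ρ → 0 < μ y ∧ μ y • D y = T y) (z w : E) (hz : ‖z - y0‖ < ρ) :
    HasDerivAt (fun t : ℝ => 2 * Real.log ‖z + t • w‖ - Real.log (T (z + t • w) (z + t • w)))
      ((T z w - T w z) / T z z) 0 := by
  obtain ⟨hz0, hq, hq0⟩ := pos D hD y0 ρ μ T hy0 hρ4 hp z hz
  have hn : 0 < ‖z‖ := norm_pos_iff.2 hz0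
  have hμ := (hp z hz).1
  have h1 := DIF.main E D hS hD z w hz0
  have h2 : HasDerivAt (fun t : ℝ => Real.log ‖z + t • w‖) (D z w / ‖z + (0:ℝ) • w‖) 0 :=
    h1.log (by simpa using hz0)
  have h3 : HasDerivAt (fun t : ℝ => T (z + t • w) (z + t • w)) (T z w + T w z) 0 := by
    have e : (fun t : ℝ => T (z + t • w) (z + t • w)) =
        fun t : ℝ => T z z + t * (T z w + T w z) + t ^ 2 * T w w := by
      funext t
      simp only [map_add, map_smul, add_apply, smul_apply,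
        smul_eq_mul]
      ring
    rw [e]
    have h4 : HasDerivAt (fun t : ℝ => T z z + t * (T z w + T w z) + t ^ 2 * T w w)
        (1 * (T z w + T w z) + (((2:ℕ):ℝ) * (0:ℝ) ^ (2 - 1) * 1) * T w w) 0 :=
      (((hasDerivAt_id (0:ℝ)).mul_const (T z w + T w z)).const_add (T z z)).add
        (((hasDerivAt_id (0:ℝ)).pow 2).mul_const (T w w))
    simpa using h4
  have h5 : HasDerivAt (fun t : ℝ => Real.log (T (z + t • w) (z + t • w)))
      ((T z w + T w z) / T (z + (0:ℝ) • w) (z + (0:ℝ) • w)) 0 :=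
    h3.log (by simpa using hq0.ne')
  have h6 := (h2.const_mul 2).sub h5
  refine h6.congr_deriv ?_
  have h7 : T z w = μ z * D z w := by
    rw [← (hp z hz).2, smul_apply, smul_eq_mul]
  rw [zero_smul, add_zero, h7, hq]
  field_simp
  ring

theorem der' (D : E → StrongDual ℝ E) (hS : Sm E) (hD : NF D) (y0 : E) (ρ : ℝ) (μ : E → ℝ)
    (T : E →ₗ[ℝ] StrongDual ℝ E) (hy0 : ‖y0‖ = 1) (hρ4 : ρ ≤ 1 / 4)
    (hp : ∀ y : E, ‖y - y0‖ < ρ → 0 < μ y ∧ μ y • D y = T y) (z w : E) (s : ℝ)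
    (hz : ‖z + s • w - y0‖ < ρ) :
    HasDerivAt (fun t : ℝ => 2 * Real.log ‖z + t • w‖ - Real.log (T (z + t • w) (z + t • w)))
      ((T (z + s • w) w - T w (z + s • w)) / T (z + s • w) (z + s • w)) s := by
  have h := der D hS hD y0 ρ μ T hy0 hρ4 hp (z + s • w) w hz
  have h2 : HasDerivAt (fun t : ℝ => t - s) 1 s := (hasDerivAt_id s).sub_const s
  have h3 := HasDerivAt.comp_of_eq s h h2 (sub_self s).symm
  rw [mul_one] at h3
  have e : ((fun t : ℝ => 2 * Real.log ‖z + s • w + t • w‖ -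
      Real.log (T (z + s • w + t • w) (z + s • w + t • w))) ∘ fun t : ℝ => t - s) =
      (fun t : ℝ => 2 * Real.log ‖z + t • w‖ - Real.log (T (z + t • w) (z + t • w))) := by
    funext t
    have e1 : z + s • w + (t - s) • w = z + t • w := by
      rw [sub_smul]; abel
    simp only [Function.comp_apply, e1]
  rw [e] at h3
  exact h3

end

theorem main : S_EQN := by
  intro E _ _ D hS hD y0 ρ μ T hy0 hρ hρ4 _ hp y x v hy
  -- a small square
  obtain ⟨r0, hr0, hball⟩ : ∃ r0 : ℝ, 0 < r0 ∧ ∀ s t : ℝ, |s| ≤ r0 → |t| ≤ r0 →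
      ‖y + s • v + t • x - y0‖ < ρ := by
    have hc : Continuous (fun p : ℝ × ℝ => ‖y + p.1 • v + p.2 • x - y0‖) := by fun_prop
    have h0 : ‖y + ((0:ℝ), (0:ℝ)).1 • v + ((0:ℝ), (0:ℝ)).2 • x - y0‖ < ρ := by simpa using hy
    have h1 : ∀ᶠ p : ℝ × ℝ in 𝓝 ((0:ℝ), (0:ℝ)), ‖y + p.1 • v + p.2 • x - y0‖ < ρ :=
      (hc.continuousAt).eventually_lt continuousAt_const h0
    obtain ⟨ε, hε, h2⟩ := Metric.eventually_nhds_iff.1 h1
    refine ⟨ε / 2, by linarith, fun s t hs ht => ?_⟩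
    have := @h2 (s, t) (by
      rw [Prod.dist_eq]
      simp only [Real.dist_eq, sub_zero]
      exact max_lt (by linarith) (by linarith))
    exact this
  -- abbreviations
  obtain ⟨A, hA⟩ : ∃ A : ℝ, A = T y v - T v y := ⟨_, rfl⟩
  obtain ⟨B, hB⟩ : ∃ B : ℝ, B = T x v - T v x := ⟨_, rfl⟩
  obtain ⟨C, hC⟩ : ∃ C : ℝ, C = T y x - T x y := ⟨_, rfl⟩
  obtain ⟨Q, hQ⟩ : ∃ Q : ℝ → ℝ → ℝ, Q = fun s t => T y y + s * (T y v + T v y) +
    t * (T y x + T x y) + s ^ 2 * T v v + s * t * (T v x + T x v) + t ^ 2 * T x x := ⟨_, rfl⟩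
  have hQz : ∀ s t : ℝ, T (y + s • v + t • x) (y + s • v + t • x) = Q s t := by
    intro s t
    rw [hQ]
    simp only [map_add, map_smul, add_apply, smul_apply,
      smul_eq_mul]
    ring
  have hQpos : ∀ s t : ℝ, |s| ≤ r0 → |t| ≤ r0 → 0 < Q s t := by
    intro s t hs ht
    rw [← hQz]
    exact (pos D hD y0 ρ μ T hy0 hρ4 hp _ (hball s t hs ht)).2.2
  have hav : ∀ s t : ℝ, T (y + s • v + t • x) v - T v (y + s • v + t • x) = A + t * B := by
    intro s t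
    rw [hA, hB]
    simp only [map_add, map_smul, add_apply, smul_apply,
      smul_eq_mul]
    ring
  have hax : ∀ s t : ℝ, T (y + s • v + t • x) x - T x (y + s • v + t • x) = C - s * B := by
    intro s t
    rw [hC, hB]
    simp only [map_add, map_smul, add_apply, smul_apply,
      smul_eq_mul]
    ring
  -- the equality of the difference quotients
  have key : ∀ h : ℝ, 0 < h → h ≤ r0 → ∃ ξ ∈ Set.Ioo 0 h, ∃ η ∈ Set.Ioo 0 h,
      (B * Q ξ 0 - A * ((T y x + T x y) + ξ * (T v x + T x v) + h * T x x)) * (Q h η * Q 0 η) =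
      (- B * Q 0 η - C * ((T y v + T v y) + η * (T v x + T x v) + h * T v v)) *
        (Q ξ h * Q ξ 0) := by
    intro h hh hhr
    have habs : ∀ s ∈ Set.Icc 0 h, |s| ≤ r0 := by
      intro s hs
      rw [abs_of_nonneg hs.1]
      exact hs.2.trans hhr
    obtain ⟨ξ, hξ, η, hη, e⟩ := fourpt
      (fun s t => 2 * Real.log ‖y + s • v + t • x‖ -
        Real.log (T (y + s • v + t • x) (y + s • v + t • x)))
      (fun s t => (A + t * B) / Q s t) (fun s t => (C - s * B) / Q s t) h hh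
      (fun s hs t ht => by
        have e1 : ∀ s' : ℝ, y + s' • v + t • x = (y + t • x) + s' • v := fun s' => by abel
        have h1 := der' D hS hD y0 ρ μ T hy0 hρ4 hp (y + t • x) v s (by
          rw [← e1]; exact hball s t (habs s hs) (habs t ht))
        simp only [← e1] at h1
        rw [hav, hQz] at h1
        exact h1)
      (fun s hs t ht => by
        have h1 := der' D hS hD y0 ρ μ T hy0 hρ4 hp (y + s • v) x t (hball s t (habs s hs) (habs t ht))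
        rw [hax, hQz] at h1
        exact h1)
    refine ⟨ξ, hξ, η, hη, ?_⟩
    have h0m : (0:ℝ) ∈ Set.Icc 0 h := ⟨le_rfl, hh.le⟩
    have h1m : h ∈ Set.Icc 0 h := ⟨hh.le, le_rfl⟩
    have p1 := hQpos ξ h (habs _ (Set.Ioo_subset_Icc_self hξ)) (habs _ h1m)
    have p2 := hQpos ξ 0 (habs _ (Set.Ioo_subset_Icc_self hξ)) (habs _ h0m)
    have p3 := hQpos h η (habs _ h1m) (habs _ (Set.Ioo_subset_Icc_self hη))
    have p4 := hQpos 0 η (habs _ h0m) (habs _ (Set.Ioo_subset_Icc_self hη))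
    rw [div_sub_div _ _ p1.ne' p2.ne', div_sub_div _ _ p3.ne' p4.ne',
      div_eq_div_iff (mul_pos p1 p2).ne' (mul_pos p3 p4).ne'] at e
    have d1 : Q ξ h = Q ξ 0 + h * ((T y x + T x y) + ξ * (T v x + T x v) + h * T x x) := by
      rw [hQ]; ring
    have d2 : Q h η = Q 0 η + h * ((T y v + T v y) + η * (T v x + T x v) + h * T v v) := by
      rw [hQ]; ring
    have f1 : (A + h * B) * Q ξ 0 - Q ξ h * (A + 0 * B) =
        h * (B * Q ξ 0 - A * ((T y x + T x y) + ξ * (T v x + T x v) + h * T x x)) := by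
      rw [d1]; ring
    have f2 : (C - h * B) * Q 0 η - Q h η * (C - 0 * B) =
        h * (- B * Q 0 η - C * ((T y v + T v y) + η * (T v x + T x v) + h * T v v)) := by
      rw [d2]; ring
    rw [f1, f2, mul_assoc, mul_assoc] at e
    exact mul_left_cancel₀ hh.ne' e
  -- the limit
  have lim : (B * Q 0 0 - A * ((T y x + T x y) + 0 * (T v x + T x v) + 0 * T x x)) *
      (Q 0 0 * Q 0 0) =
      (- B * Q 0 0 - C * ((T y v + T v y) + 0 * (T v x + T x v) + 0 * T v v)) *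
        (Q 0 0 * Q 0 0) := by
    by_contra hne
    obtain ⟨Φ, hΦ⟩ : ∃ Φ : ℝ × ℝ × ℝ → ℝ, Φ = fun p =>
      (B * Q p.1 0 - A * ((T y x + T x y) + p.1 * (T v x + T x v) + p.2.2 * T x x)) *
        (Q p.2.2 p.2.1 * Q 0 p.2.1) -
      (- B * Q 0 p.2.1 - C * ((T y v + T v y) + p.2.1 * (T v x + T x v) + p.2.2 * T v v)) *
        (Q p.1 p.2.2 * Q p.1 0) := ⟨_, rfl⟩
    have hcont : Continuous Φ := by
      rw [hΦ, hQ]
      fun_prop
    have h0 : Φ (0, 0, 0) ≠ 0 := by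
      rw [hΦ]
      exact sub_ne_zero.2 hne
    obtain ⟨ε, hε, h2⟩ := Metric.eventually_nhds_iff.1 (hcont.continuousAt.eventually_ne h0)
    obtain ⟨ξ, hξ, η, hη, e⟩ := key (min r0 (ε / 2)) (lt_min hr0 (by linarith)) (min_le_left _ _)
    have hm : min r0 (ε / 2) < ε := lt_of_le_of_lt (min_le_right _ _) (by linarith)
    have hm0 : 0 < min r0 (ε / 2) := lt_min hr0 (by linarith)
    refine @h2 (ξ, η, min r0 (ε / 2)) ?_ ?_
    · rw [Prod.dist_eq, Prod.dist_eq]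
      simp only [Real.dist_eq, sub_zero]
      rw [abs_of_pos hξ.1, abs_of_pos hη.1, abs_of_pos hm0]
      exact max_lt (hξ.2.trans hm) (max_lt (hη.2.trans hm) hm)
    · rw [hΦ]
      exact sub_eq_zero.2 e
  have hQ0 : Q 0 0 = T y y := by rw [hQ]; ring
  have hq0 : 0 < T y y := (pos D hD y0 ρ μ T hy0 hρ4 hp y hy).2.2
  rw [hQ0] at lim
  have l2 := mul_right_cancel₀ (mul_pos hq0 hq0).ne' lim
  rw [← hA, ← hB, ← hC]
  linarith
end Pool.Agent.H66.SO.T.EQN
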