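import Pool.Agent.H66.SO.Stm
import Pool.Agent.Lead.BR.T.PAR

/-! # SO-FIN (helper71) -/

set_option autoImplicit false

namespace Pool.Agent.H66.SO.T.FIN

open TopologicalSpace Metric Filter Topology
open Pool.Agent.Lead.BR (Tr Sm NF Bo Orth Pairs Hilb)

theorem main : S_FIN := by
  intro E _ _ _ hTr y0 hy0 h
  have key : ∀ x y : E, ‖x + y‖ * ‖x + y‖ + ‖x - y‖ * ‖x - y‖ = 2 * (‖x‖ * ‖x‖ + ‖y‖ * ‖y‖) := by
    refine Pool.Agent.Lead.BR.T.PAR.main E ?_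
    intro z u hz
    have hz' : 0 < ‖z‖ := norm_pos_iff.2 hz
    obtain ⟨T, hT⟩ := hTr y0 (‖z‖⁻¹ • z) hy0 (by
      rw [norm_smul, norm_inv, norm_norm, inv_mul_cancel₀ hz'.ne'])
    obtain ⟨r, b, c, hr, hq⟩ := h (T.symm u)
    refine ⟨r * ‖z‖, b * ‖z‖, c, mul_pos hr hz', ?_⟩
    intro t ht
    have h1 : |t / ‖z‖| < r := by
      rw [abs_div, abs_of_pos hz', div_lt_iff₀ hz']
      exact ht
    have h2 := hq _ h1
    have h3 : z + t • u = ‖z‖ • T (y0 + (t / ‖z‖) • T.symm u) := by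
      rw [map_add, map_smul, hT, LinearIsometryEquiv.apply_symm_apply, smul_add, smul_smul,
        smul_smul, mul_inv_cancel₀ hz'.ne', one_smul, mul_div_cancel₀ _ hz'.ne']
    rw [h3, norm_smul, norm_norm, T.norm_map, mul_pow, h2]
    field_simp
  exact ⟨E, inferInstance, InnerProductSpace.ofNorm ℝ key, inferInstance,
    ⟨LinearIsometryEquiv.refl ℝ E⟩⟩

end Pool.Agent.H66.SO.T.FIN
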