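import Pool.Agent.H66.SO.Stm

/-! # SO-FLC (helper91) -/

set_option autoImplicit false

namespace Pool.Agent.H66.SO.T.FLC

open Pool.Agent.Lead.BR (Tr Sm NF Bo Orth Pairs Hilb)
open Metric

theorem exists_sub (E : Type) [AddCommGroup E] [Module ℝ E] (h : ¬ FiniteDimensional ℝ E) (n : ℕ) :
    ∃ G : Submodule ℝ E, FiniteDimensional ℝ G ∧ Module.finrank ℝ G = n := by
  have h1 : (n : Cardinal) ≤ Module.rank ℝ E := by
    by_contra h2
    push Not at h2
    exact h (Module.rank_lt_aleph0_iff.1 (h2.trans (Cardinal.natCast_lt_aleph0)))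
  obtain ⟨f, hf⟩ := exists_linearIndependent_of_le_rank h1
  refine ⟨Submodule.span ℝ (Set.range f), FiniteDimensional.span_of_finite ℝ (Set.finite_range f), ?_⟩
  rw [finrank_span_eq_card hf, Fintype.card_fin]

theorem main : S_FLC := by
  intro E _ _ hT hE n f z ρ hz hρ h
  obtain ⟨G, hG, hGn⟩ := exists_sub E hE (n + 1)
  have := hG
  have hnt : Nontrivial G := (Module.finrank_pos_iff (R := ℝ)).1 (by omega)
  have hc : IsCompact (closedBall (0 : G) 1) := isCompact_closedBall 0 1
  obtain ⟨g, hg⟩ := hc.extremePoints_nonempty (nonempty_closedBall.2 zero_le_one)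
  have hex : ∀ u : G, g + u ∈ closedBall (0 : G) 1 → g - u ∈ closedBall (0 : G) 1 → u = 0 := by
    intro u h1 h2
    have h3 : g ∈ openSegment ℝ (g + u) (g - u) :=
      ⟨1 / 2, 1 / 2, by norm_num, by norm_num, by norm_num, by module⟩
    have h4 := hg.2 h1 h2 h3
    simpa using h4
  have hg1 : ‖g‖ = 1 := by
    have h1 : ‖g‖ ≤ 1 := by simpa using hg.1
    by_contra h2
    have h3 : ‖g‖ < 1 := lt_of_le_of_ne h1 h2
    obtain ⟨u, hu⟩ := exists_ne (0 : G)
    have hu' : 0 < ‖u‖ := norm_pos_iff.2 hu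
    set c : ℝ := (1 - ‖g‖) / ‖u‖ with hc
    have hc0 : 0 < c := div_pos (by linarith) hu'
    have hcu : ‖c • u‖ = 1 - ‖g‖ := by
      rw [norm_smul, Real.norm_of_nonneg hc0.le, hc, div_mul_cancel₀ _ hu'.ne']
    have h4 := hex (c • u) (by
      rw [mem_closedBall_zero_iff]
      exact (norm_add_le _ _).trans (by rw [hcu]; linarith)) (by
      rw [mem_closedBall_zero_iff]
      exact (norm_sub_le _ _).trans (by rw [hcu]; linarith))
    exact (smul_ne_zero hc0.ne' hu) h4
  obtain ⟨T, hTz⟩ := hT z (g : E) hz (by simpa using hg1)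
  let L : G →ₗ[ℝ] (Fin n → ℝ) := LinearMap.pi fun i =>
    ((f i : E →ₗ[ℝ] ℝ).comp (T.symm.toLinearEquiv : E →ₗ[ℝ] E)).comp G.subtype
  have hL : ∃ u : G, u ≠ 0 ∧ L u = 0 := by
    by_contra hcon
    push Not at hcon
    have hinj : Function.Injective L := by
      rw [injective_iff_map_eq_zero]
      intro u hu
      by_contra hne
      exact hcon u hne hu
    have := LinearMap.finrank_le_finrank_of_injective hinj
    rw [hGn, Module.finrank_fin_fun] at this
    omega
  obtain ⟨u, hu, hLu⟩ := hL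
  have hu' : 0 < ‖u‖ := norm_pos_iff.2 hu
  set c : ℝ := ρ / 2 / ‖u‖ with hc
  have hc0 : 0 < c := div_pos (by linarith) hu'
  have hcu : ‖c • u‖ = ρ / 2 := by
    rw [norm_smul, Real.norm_of_nonneg hc0.le, hc, div_mul_cancel₀ _ hu'.ne']
  have hf : ∀ i, f i (T.symm ((c • u : G) : E)) = 0 := by
    intro i
    have h1 := congrFun hLu i
    have h2 : f i (T.symm (u : E)) = 0 := h1
    rw [Submodule.coe_smul, map_smul, map_smul, h2, smul_zero]
  have key : ∀ s : ℝ, |s| = 1 → ‖g + s • (c • u)‖ = 1 := by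
    intro s hs
    have h1 := h (s • T.symm ((c • u : G) : E)) (by
      rw [norm_smul, Real.norm_eq_abs, hs, one_mul, T.symm.norm_map, ← Submodule.coe_norm, hcu]
      linarith) (fun i => by rw [map_smul, hf i, smul_zero])
    have h2 : T (z + s • T.symm ((c • u : G) : E)) = ((g + s • (c • u) : G) : E) := by
      rw [map_add, map_smul, T.apply_symm_apply, hTz]
      simp
    rw [Submodule.coe_norm, ← h2, T.norm_map, h1]
  have h4 := hex (c • u) (by
      rw [mem_closedBall_zero_iff]
      have := key 1 (by norm_num)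
      rw [one_smul] at this
      exact this.le) (by
      rw [mem_closedBall_zero_iff]
      have := key (-1) (by norm_num)
      rw [neg_one_smul, ← sub_eq_add_neg] at this
      exact this.le)
  exact (smul_ne_zero hc0.ne' hu) h4

end Pool.Agent.H66.SO.T.FLC
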