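import Pool.Agent.H66.SO.Stm

/-! # SO-FLT (helper91) -/

set_option autoImplicit false

namespace Pool.Agent.H66.SO.T.FLT

open Pool.Agent.Lead.BR (Tr Sm NF Bo Orth Pairs Hilb)

theorem main : S_FLT := by
  intro E _ _ D hS hD y w hy hyw h1 h2
  have a1 := hD y hy
  have a2 := hD (y + w) hyw
  have b1 : ‖y + w‖ ≤ ‖y‖ := by
    have e1 : D (y + w) y = ‖y + w‖ := by
      have := a2.2
      rw [map_add, h2, add_zero] at this
      exact this
    have e2 := (D (y + w)).le_opNorm y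
    rw [Real.norm_eq_abs, e1, abs_of_nonneg (norm_nonneg _)] at e2
    exact e2.trans (by nlinarith [norm_nonneg y, a2.1])
  have e3 : D y (y + w) = ‖y‖ := by rw [map_add, h1, add_zero, a1.2]
  have b2 : ‖y‖ ≤ ‖y + w‖ := by
    have e4 := (D y).le_opNorm (y + w)
    rw [Real.norm_eq_abs, e3, abs_of_nonneg (norm_nonneg _)] at e4
    exact e4.trans (by nlinarith [norm_nonneg (y + w), a1.1])
  have b3 : ‖y + w‖ = ‖y‖ := le_antisymm b1 b2
  exact ⟨b3, hS (y + w) _ _ hyw a2.1 a1.1 a2.2 (by rw [e3, b3])⟩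

end Pool.Agent.H66.SO.T.FLT
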