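import Pool.Agent.H66.SO.Stm

set_option autoImplicit false

namespace Pool.Agent.H66.SO.T.LIN

theorem main : S_LIN := by
  intro E _ _ F G K ρ hρ h hc
  set τ : E → StrongDual ℝ E := fun u => F u - F 0 with hτ
  have h0 : ‖(0 : E)‖ < ρ := by rw [norm_zero]; exact hρ
  have hadd : ∀ u v : E, ‖u‖ < ρ / 2 → ‖v‖ < ρ / 2 → τ (u + v) = τ u + τ v := by
    intro u v hu hv
    have huv : ‖u + v‖ < ρ := (norm_add_le u v).trans_lt (by linarith)
    have h1 := h (u + v) 0 huv h0
    have h2 := h u v (by linarith) (by linarith)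
    have h3 := h 0 v h0 (by linarith)
    have h4 := h v 0 (by linarith) h0
    rw [add_zero] at h1 h4
    rw [zero_add] at h3
    have e1 : F (u + v) = F u + G v - G 0 := eq_sub_of_add_eq (h1.trans h2.symm)
    have e2 : G v = F v + G 0 - F 0 := by
      have : G v + F 0 = F v + G 0 := by rw [add_comm]; exact h3.trans h4.symm
      exact eq_sub_of_add_eq this
    show F (u + v) - F 0 = (F u - F 0) + (F v - F 0)
    rw [e1, e2]
    abel
  have hn : ∀ (n : ℕ) (w : E), ‖(n : ℝ) • w‖ < ρ / 2 → τ ((n : ℝ) • w) = (n : ℝ) • τ w := by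
    intro n w
    induction n with
    | zero => intro _; simp [hτ]
    | succ n ih =>
      intro hw
      have hnorm : ‖((n + 1 : ℕ) : ℝ) • w‖ = (n + 1) * ‖w‖ := by
        rw [norm_smul, Real.norm_of_nonneg (by positivity)]
        push_cast
        ring
      rw [hnorm] at hw
      have hw0 := norm_nonneg w
      have h1 : ‖(n : ℝ) • w‖ < ρ / 2 := by
        rw [norm_smul, Real.norm_of_nonneg (by positivity)]
        nlinarith
      have h2 : ‖w‖ < ρ / 2 := by
        have : 0 ≤ (n : ℝ) * ‖w‖ := by positivity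
        nlinarith
      have e : ((n + 1 : ℕ) : ℝ) • w = (n : ℝ) • w + w := by
        push_cast
        rw [add_smul, one_smul]
      rw [e, hadd _ _ h1 h2, ih h1]
      push_cast
      rw [add_smul, one_smul]
  have hmn : ∀ (u : E) (m n : ℕ), 0 < m → 0 < n → ‖u‖ < m * (ρ / 2) → ‖u‖ < n * (ρ / 2) →
      (m : ℝ) • τ ((m : ℝ)⁻¹ • u) = (n : ℝ) • τ ((n : ℝ)⁻¹ • u) := by
    have key : ∀ (u : E) (m n : ℕ), 0 < m → 0 < n → ‖u‖ < m * (ρ / 2) →
        (m : ℝ) • τ ((m : ℝ)⁻¹ • u) = ((m : ℝ) * n) • τ (((m : ℝ) * n)⁻¹ • u) := by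
      intro u m n hm hn' hu
      have hm' : (0 : ℝ) < m := by exact_mod_cast hm
      have hn'' : (0 : ℝ) < n := by exact_mod_cast hn'
      have e : (n : ℝ) • (((m : ℝ) * n)⁻¹ • u) = (m : ℝ)⁻¹ • u := by
        rw [smul_smul]
        congr 1
        field_simp
      have h1 : ‖(m : ℝ)⁻¹ • u‖ < ρ / 2 := by
        rw [norm_smul, Real.norm_of_nonneg (by positivity), inv_mul_lt_iff₀ hm']
        exact hu
      have h2 := hn n (((m : ℝ) * n)⁻¹ • u) (by rw [e]; exact h1)
      rw [e] at h2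
      rw [h2, smul_smul]
    intro u m n hm hn' hu1 hu2
    rw [key u m n hm hn' hu1, key u n m hn' hm hu2, mul_comm]
  set nn : E → ℕ := fun u => ⌈2 * ‖u‖ / ρ⌉₊ + 1 with hnn
  have hnn1 : ∀ u, 0 < nn u := fun u => Nat.succ_pos _
  have hnn2 : ∀ u, ‖u‖ < nn u * (ρ / 2) := by
    intro u
    have h1 : 2 * ‖u‖ / ρ ≤ (⌈2 * ‖u‖ / ρ⌉₊ : ℝ) := Nat.le_ceil _
    have h2 : 2 * ‖u‖ / ρ < (nn u : ℝ) := by
      rw [hnn]
      push_cast
      linarith
    rw [div_lt_iff₀ hρ] at h2
    linarith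
  set T0 : E → StrongDual ℝ E := fun u => (nn u : ℝ) • τ ((nn u : ℝ)⁻¹ • u) with hT0
  have hT : ∀ (u : E) (m : ℕ), 0 < m → ‖u‖ < m * (ρ / 2) →
      T0 u = (m : ℝ) • τ ((m : ℝ)⁻¹ • u) :=
    fun u m hm hu => hmn u (nn u) m (hnn1 u) hm (hnn2 u) hu
  have hTsmall : ∀ u : E, ‖u‖ < ρ / 2 → T0 u = τ u := by
    intro u hu
    rw [hT u 1 one_pos (by simpa using hu)]
    simp
  have hTadd : ∀ u v : E, T0 (u + v) = T0 u + T0 v := by
    intro u v
    set m : ℕ := nn u + nn v with hm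
    have hmpos : 0 < m := by have := hnn1 u; omega
    have hm' : (0 : ℝ) < m := by exact_mod_cast hmpos
    have hu := hnn2 u
    have hv := hnn2 v
    have hu0 : (0 : ℝ) < nn u := by exact_mod_cast hnn1 u
    have hv0 : (0 : ℝ) < nn v := by exact_mod_cast hnn1 v
    have hcast : (m : ℝ) = nn u + nn v := by rw [hm]; push_cast; ring
    have h1 : ‖u‖ < m * (ρ / 2) := by rw [hcast]; nlinarith
    have h2 : ‖v‖ < m * (ρ / 2) := by rw [hcast]; nlinarith
    have h3 : ‖u + v‖ < m * (ρ / 2) := by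
      refine (norm_add_le u v).trans_lt ?_
      rw [hcast]
      nlinarith
    rw [hT _ m hmpos h1, hT _ m hmpos h2, hT _ m hmpos h3, ← smul_add, smul_add (m : ℝ)⁻¹ u v]
    congr 1
    apply hadd
    · rw [norm_smul, Real.norm_of_nonneg (by positivity), inv_mul_lt_iff₀ hm']
      exact h1
    · rw [norm_smul, Real.norm_of_nonneg (by positivity), inv_mul_lt_iff₀ hm']
      exact h2
  set φ : E → E →+ ℝ := fun e => AddMonoidHom.mk' (fun u => T0 u e) (fun u v => by
    rw [hTadd]; rfl) with hφ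
  have hcont : ∀ e : E, Continuous (φ e) := by
    intro e
    apply continuous_of_continuousAt_zero (φ e)
    have h1 : ContinuousAt (fun u : E => F u e - F 0 e) 0 := (hc e).sub continuousAt_const
    refine h1.congr ?_
    have h2 : Metric.ball (0 : E) (ρ / 2) ∈ nhds (0 : E) := Metric.ball_mem_nhds _ (by linarith)
    filter_upwards [h2] with u hu
    rw [mem_ball_zero_iff] at hu
    show F u e - F 0 e = T0 u e
    rw [hTsmall u hu]
    rfl
  refine ⟨{ toFun := T0, map_add' := hTadd, map_smul' := ?_ }, ?_, ?_⟩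
  · intro c u
    ext e
    exact map_real_smul (φ e) (hcont e) c u
  · intro e
    exact hcont e
  · intro u hu
    show F u = F 0 + T0 u
    rw [hTsmall u hu]
    show F u = F 0 + (F u - F 0)
    abel

end Pool.Agent.H66.SO.T.LIN
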