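import Pool.Agent.H66.SO.Stm

/-! # SO-NFL (helper85) -/

set_option autoImplicit false

namespace Pool.Agent.H66.SO.T.NFL

open TopologicalSpace Metric Filter Topology
open Pool.Agent.Lead.BR (Tr Sm NF Bo Orth Pairs Hilb)

theorem ne_zero_of_near {E : Type} [NormedAddCommGroup E] {z z0 : E} {δ : ℝ} (h0 : ‖z0‖ = 1)
    (hδ : δ ≤ 1 / 4) (h : ‖z - z0‖ < δ) : z ≠ 0 := by
  rintro rfl
  rw [zero_sub, norm_neg, h0] at h
  linarith

theorem vec2 {E F : Type} (D : E → F) (p w : E) : (fun i => D (![p, w] i)) = ![D p, D w] := by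
  funext i
  fin_cases i <;> rfl

theorem main : S_ROB → S_FLT → S_NFL := by
  intro hROB hFLT E _ _ D hS hD hNR x0 y0 δ hLoc p p' w x1 hp hp' hw hx1 hDD hpx hwx hind
  obtain ⟨hx0, hy0, _, _, hδ, hδ4, hloc⟩ := hLoc
  have hp0 := ne_zero_of_near hy0 hδ4 hp
  have hp0' := ne_zero_of_near hy0 hδ4 hp'
  have hw0 := ne_zero_of_near hy0 hδ4 hw
  have hnp : ‖p‖ ≠ 0 := norm_ne_zero_iff.2 hp0
  have hnp' : ‖p'‖ ≠ 0 := norm_ne_zero_iff.2 hp0'
  obtain ⟨e, he⟩ : ∃ e : E, e = ‖p‖⁻¹ • p - ‖p'‖⁻¹ • p' := ⟨_, rfl⟩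
  suffices h : e = 0 by
    rw [he, sub_eq_zero] at h
    have h1 := congrArg (fun z => (‖p‖ * ‖p'‖) • z) h
    simp only [smul_smul] at h1
    have e1 : ‖p‖ * ‖p'‖ * ‖p‖⁻¹ = ‖p'‖ := by field_simp
    have e2 : ‖p‖ * ‖p'‖ * ‖p'‖⁻¹ = ‖p‖ := by field_simp
    rwa [e1, e2] at h1
  have hpe : D p e = 0 := by
    rw [he, map_sub, map_smul, map_smul, (hD p hp0).2, hDD, (hD p' hp0').2, smul_eq_mul, smul_eq_mul, inv_mul_cancel₀ hnp, inv_mul_cancel₀ hnp', sub_self]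
  obtain ⟨ρ, hρ, hR⟩ := hROB E D hS hD 2 ![p, w] x1 (δ - ‖x1 - x0‖) (by linarith)
    (by intro i; fin_cases i <;> simpa) (by rw [vec2]; exact hind)
    (by intro i; fin_cases i <;> simpa)
  refine hNR w e (min ρ (δ - ‖w - y0‖)) hw0 (lt_min hρ (by linarith)) fun y hy => ?_
  have hyρ : ‖y - w‖ < ρ := hy.trans_le (min_le_left _ _)
  have hyδ : ‖y - y0‖ < δ := by
    have h1 : ‖y - w‖ < δ - ‖w - y0‖ := hy.trans_le (min_le_right _ _)
    have h2 : ‖y - y0‖ ≤ ‖y - w‖ + ‖w - y0‖ := norm_sub_le_norm_sub_add_norm_sub y w y0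
    linarith
  obtain ⟨-, x', hx', hx'0⟩ := hR ![p, y] (by
    intro i
    fin_cases i
    · simpa using hρ
    · simpa using hyρ)
  have hx'p : D p x' = 0 := hx'0 0
  have hx'y : D y x' = 0 := hx'0 1
  have hx'δ : ‖x' - x0‖ < δ := by
    have h2 : ‖x' - x0‖ ≤ ‖x' - x1‖ + ‖x1 - x0‖ := norm_sub_le_norm_sub_add_norm_sub x' x1 x0
    linarith
  obtain ⟨t, ht⟩ : ∃ t : ℝ, t = (δ - ‖x' - x0‖) / (2 * (‖e‖ + 1)) := ⟨_, rfl⟩
  have hne : 0 ≤ ‖e‖ := norm_nonneg e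
  have ht0 : 0 < t := by rw [ht]; exact div_pos (by linarith) (by positivity)
  have hte : t * ‖e‖ < δ - ‖x' - x0‖ := by
    have h1 : t * (2 * (‖e‖ + 1)) = δ - ‖x' - x0‖ := by rw [ht]; field_simp
    nlinarith
  -- the orthogonality along the segment
  have hseg : ∀ s : ℝ, 0 ≤ s → s ≤ t → ‖x' + s • e - x0‖ < δ ∧ D (x' + s • e) e = 0 := by
    intro s hs0 hst
    have h1 : ‖x' + s • e - x0‖ < δ := by
      have h2 : x' + s • e - x0 = (x' - x0) + s • e := by abel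
      rw [h2]
      refine (norm_add_le _ _).trans_lt ?_
      rw [norm_smul, Real.norm_of_nonneg hs0]
      nlinarith
    refine ⟨h1, ?_⟩
    have h2 : D (x' + s • e) p = 0 := by
      rw [hloc _ p h1 hp, map_add, map_smul, hx'p, hpe, smul_zero, add_zero]
    have h3 : D (x' + s • e) p' = 0 := by
      rw [hloc _ p' h1 hp', ← hDD, map_add, map_smul, hx'p, hpe, smul_zero, add_zero]
    have h4 : D (x' + s • e) (‖p‖⁻¹ • p - ‖p'‖⁻¹ • p') = 0 := by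
      rw [map_sub, map_smul, map_smul, h2, h3, smul_zero, smul_zero, sub_self]
    rwa [← he] at h4
  have h0 := hseg 0 le_rfl ht0.le
  have h1 := hseg t ht0.le le_rfl
  rw [zero_smul, add_zero] at h0
  have hx'ne := ne_zero_of_near hx0 hδ4 h0.1
  have hx't := ne_zero_of_near hx0 hδ4 h1.1
  obtain ⟨-, hFD⟩ := hFLT E D hS hD x' (t • e) hx'ne hx't (by rw [map_smul, h0.2, smul_zero])
    (by rw [map_smul, h1.2, smul_zero])
  have h2 : D x' y = 0 := (hloc x' y h0.1 hyδ).2 hx'y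
  have h3 : D y (x' + t • e) = 0 := by
    rw [← hloc _ y h1.1 hyδ, hFD, h2]
  rw [map_add, hx'y, zero_add, map_smul, smul_eq_mul] at h3
  rcases mul_eq_zero.1 h3 with h4 | h4
  · exact absurd h4 ht0.ne'
  · exact h4

end Pool.Agent.H66.SO.T.NFL
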