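import Pool.Agent.H66.SO.Stm
import Pool.Agent.Lead.BR.T.EQV

/-! # SO-PEX (helper75) -/

set_option autoImplicit false

namespace Pool.Agent.H66.SO.T.PEX

open TopologicalSpace Metric Filter Topology
open Pool.Agent.Lead.BR (Tr Sm NF Bo Orth Pairs Hilb)

variable {E : Type} [NormedAddCommGroup E] [NormedSpace ℝ E] {D : E → StrongDual ℝ E}

theorem rat_unique {b y : E} (hli : LinearIndependent ℝ ![D b, D y]) {r r' : ℝ}
    (h : Rat D b y r) (h' : Rat D b y r') : r = r' := by
  obtain ⟨hr, c, hc, e⟩ := h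
  obtain ⟨hr', c', hc', e'⟩ := h'
  have h0 : c • (D b + r • D y) = c' • (D b + r' • D y) := by rw [← e, ← e']
  have h1 : (c - c') • D b + (c * r - c' * r') • D y = 0 := by
    have h2 : (c - c') • D b + (c * r - c' * r') • D y =
        c • (D b + r • D y) - c' • (D b + r' • D y) := by
      module
    rw [h2, h0, sub_self]
  have h2 := LinearIndependent.pair_iff.1 hli _ _ h1
  have h3 : c = c' := sub_eq_zero.1 h2.1
  have h4 : c * r = c * r' := by
    have := sub_eq_zero.1 h2.2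
    rw [this, h3]
  exact mul_left_cancel₀ hc.ne' h4

theorem li3 {f g h : StrongDual ℝ E} (H : LinearIndependent ℝ ![f, g, h]) (s t u : ℝ)
    (e : s • f + t • g + u • h = 0) : s = 0 ∧ t = 0 ∧ u = 0 := by
  have h1 := Fintype.linearIndependent_iff.1 H ![s, t, u] (by
    rw [Fin.sum_univ_three]
    exact e)
  exact ⟨h1 0, h1 1, h1 2⟩

theorem ssub (r s : ℝ) (f : StrongDual ℝ E) : (r - s) • f = r • f - s • f := by module

theorem main : S_ROB → S_ADD → S_RAT → S_LIN → S_TRI → S_PEX := by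
  intro hROB hADD hRAT hLIN hTRI E _ _ D hT hfin hS hD hNR x0 y0 δ hL hP
  obtain ⟨a, b, ha, hb, hxa, hxb, hli⟩ := hTRI E D hT hfin hS hD x0 y0 δ hL
  obtain ⟨h1, h2, h3, h4, h5, h6, h7⟩ := id hL
  have hx00 : ‖x0 - x0‖ < δ := by rw [sub_self, norm_zero]; exact h5
  have hy00 : ‖y0 - y0‖ < δ := by rw [sub_self, norm_zero]; exact h5
  have hnz : ∀ y : E, ‖y - y0‖ < δ → y ≠ 0 := by
    rintro y hy rfl
    rw [zero_sub, norm_neg, h2] at hy
    linarith
  have hax : D a x0 = 0 := (h7 x0 a hx00 ha).1 hxa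
  have hbx : D b x0 = 0 := (h7 x0 b hx00 hb).1 hxb
  have hli1 : LinearIndependent ℝ ![D b, D y0] := by
    rw [LinearIndependent.pair_iff]
    intro s t e
    have := li3 hli t 0 s (by rw [← e]; module)
    exact ⟨this.2.2, this.1⟩
  have hli2 : LinearIndependent ℝ ![D b, D a] := by
    rw [LinearIndependent.pair_iff]
    intro s t e
    have := li3 hli 0 t s (by rw [← e]; module)
    exact ⟨this.2.2, this.2.1⟩
  obtain ⟨ρ1, hρ1, R1, hR1, hR1c⟩ := hRAT E D hS hD x0 y0 δ hL hP b y0 hb hy00 hbx h4 hli1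
  obtain ⟨ρ2, hρ2, R2, hR2, -⟩ := hRAT E D hS hD x0 y0 δ hL hP b a hb ha hbx hax hli2
  obtain ⟨ρ3, hρ3, hR3⟩ := hROB E D hS hD 3 ![b, y0, a] x0 δ h5
    (by
      intro i
      fin_cases i
      · exact hnz _ hb
      · exact hnz _ hy00
      · exact hnz _ ha)
    (by
      rw [Fintype.linearIndependent_iff]
      intro g hg
      rw [Fin.sum_univ_three] at hg
      have hg' : g 0 • D b + g 1 • D y0 + g 2 • D a = 0 := hg
      have := li3 hli (g 1) (g 2) (g 0) (by rw [← hg']; module)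
      intro i
      fin_cases i
      · exact this.2.2
      · exact this.1
      · exact this.2.1)
    (by
      intro i
      fin_cases i
      · exact hbx
      · exact h4
      · exact hax)
  obtain ⟨ρ, hρ, k1, k2, k3, k4, k5⟩ : ∃ ρ : ℝ, 0 < ρ ∧ ρ ≤ ρ1 ∧ ρ ≤ ρ2 ∧ ρ ≤ ρ3 ∧ ρ ≤ δ ∧
      ρ ≤ δ - ‖a - y0‖ := by
    have q : 0 < δ - ‖a - y0‖ := by linarith
    refine ⟨min ρ1 (min ρ2 (min ρ3 (min δ (δ - ‖a - y0‖)))),
      lt_min hρ1 (lt_min hρ2 (lt_min hρ3 (lt_min h5 q))), min_le_left _ _,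
      (min_le_right _ _).trans (min_le_left _ _),
      (min_le_right _ _).trans ((min_le_right _ _).trans (min_le_left _ _)),
      (min_le_right _ _).trans ((min_le_right _ _).trans ((min_le_right _ _).trans
        (min_le_left _ _))),
      (min_le_right _ _).trans ((min_le_right _ _).trans ((min_le_right _ _).trans
        (min_le_right _ _)))⟩
  -- the three functions
  classical
  set F : E → StrongDual ℝ E := fun u => R1 (y0 + u) • D (y0 + u) with hF
  set G : E → StrongDual ℝ E := fun v => R2 (a + v) • D (a + v) with hG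
  set K : E → StrongDual ℝ E := fun w =>
    if h : ∃ r, Rat D b (y0 + a + w) r then h.choose • D (y0 + a + w) else 0 with hK
  have hkey : ∀ u v : E, ‖u‖ < ρ → ‖v‖ < ρ → F u + G v = K (u + v) := by
    intro u v hu hv
    have eu : y0 + u - y0 = u := by abel
    have ev : a + v - a = v := by abel
    obtain ⟨hl, x', hx', hx'D⟩ := hR3 ![b, y0 + u, a + v] (by
      intro i
      fin_cases i
      · show ‖b - b‖ < ρ3
        rw [sub_self, norm_zero]
        exact hρ3
      · show ‖y0 + u - y0‖ < ρ3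
        rw [eu]
        exact hu.trans_le k3
      · show ‖a + v - a‖ < ρ3
        rw [ev]
        exact hv.trans_le k3)
    have hl3 : LinearIndependent ℝ ![D b, D (y0 + u), D (a + v)] := by
      have h8 : (fun i => D ((![b, y0 + u, a + v] : Fin 3 → E) i)) =
          ![D b, D (y0 + u), D (a + v)] := by
        funext i
        fin_cases i <;> rfl
      rw [← h8]
      exact hl
    have d0 : D b x' = 0 := hx'D 0
    have d1 : D (y0 + u) x' = 0 := hx'D 1
    have d2 : D (a + v) x' = 0 := hx'D 2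
    have n1 : ‖y0 + u - y0‖ < δ := by rw [eu]; exact hu.trans_le k4
    have n2 : ‖a + v - y0‖ < δ := by
      have h8 : a + v - y0 = v + (a - y0) := by abel
      rw [h8]
      have h9 := norm_add_le v (a - y0)
      linarith
    have r1 : Rat D b (y0 + u) (R1 (y0 + u)) := hR1 _ (by rw [eu]; exact hu.trans_le k1)
    have r2 : Rat D b (a + v) (R2 (a + v)) := hR2 _ (by rw [ev]; exact hv.trans_le k2)
    obtain ⟨r3, hr3, e3⟩ := hADD E D hS hD x0 y0 δ hL hP b (y0 + u) (a + v) x' hb n1 n2 hx' d0 d1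
      d2 hl3 _ _ r1 r2
    have e4 : y0 + u + (a + v) = y0 + a + (u + v) := by abel
    rw [e4] at hr3 e3
    have hlK : LinearIndependent ℝ ![D b, D (y0 + a + (u + v))] := by
      rw [LinearIndependent.pair_iff]
      intro s t e
      have h8 : r3 • (s • D b + t • D (y0 + a + (u + v))) = 0 := by rw [e, smul_zero]
      have h9 : (r3 * s) • D b + (t * R1 (y0 + u)) • D (y0 + u) +
          (t * R2 (a + v)) • D (a + v) = 0 := by
        rw [← h8, smul_add, smul_smul, smul_comm r3 t, e3]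
        module
      obtain ⟨g1, g2, g3⟩ := li3 hl3 _ _ _ h9
      exact ⟨(mul_eq_zero.1 g1).resolve_left hr3.1.ne', (mul_eq_zero.1 g2).resolve_right r1.1.ne'⟩
    have hex : ∃ r, Rat D b (y0 + a + (u + v)) r := ⟨r3, hr3⟩
    have hKe : K (u + v) = hex.choose • D (y0 + a + (u + v)) := by
      rw [hK]
      exact dif_pos hex
    rw [hKe, rat_unique hlK hex.choose_spec hr3, e3]
  obtain ⟨T, hTc, hTF⟩ := hLIN E F G K ρ hρ hkey (by
    intro e
    have h8 : ContinuousAt (fun y => R1 y * D y e) (y0 + 0) := by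
      rw [add_zero]
      exact hR1c e
    have h9 : ContinuousAt (fun u : E => y0 + u) 0 := by fun_prop
    exact ContinuousAt.comp (f := fun u : E => y0 + u) (g := fun y => R1 y * D y e) h8 h9)
  -- `Ψ y = Ψ y0 + T (y - y0)`
  have hΨ : ∀ y : E, ‖y - y0‖ < ρ / 2 → R1 y • D y = R1 y0 • D y0 + T (y - y0) := by
    intro y hy
    have h8 := hTF (y - y0) hy
    rw [hF] at h8
    simpa using h8
  -- `T y` is a multiple of `D y`
  have hmul : ∀ y : E, ‖y - y0‖ < ρ / 2 → ∃ κ : ℝ, T y = κ • D y := by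
    intro y hy
    have hy0 : y ≠ 0 := hnz y (by linarith)
    have hyn : 0 < ‖y‖ := norm_pos_iff.2 hy0
    obtain ⟨ε, hε, hε1⟩ : ∃ ε : ℝ, 0 < ε ∧ ε * ‖y‖ < ρ / 2 - ‖y - y0‖ := by
      refine ⟨(ρ / 2 - ‖y - y0‖) / 2 / ‖y‖, by
        have : 0 < ρ / 2 - ‖y - y0‖ := by linarith
        positivity, ?_⟩
      rw [div_mul_cancel₀ _ hyn.ne']
      linarith
    have h8 : ‖(1 + ε) • y - y0‖ < ρ / 2 := by
      have h9 : (1 + ε) • y - y0 = (y - y0) + ε • y := by module
      rw [h9]
      have h10 := norm_add_le (y - y0) (ε • y)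
      rw [norm_smul, Real.norm_of_nonneg hε.le] at h10
      linarith
    have h9 := hΨ _ h8
    have h10 := hΨ _ hy
    rw [(Pool.Agent.Lead.BR.T.EQV.main E D hS hD).2 (1 + ε) y (by linarith) hy0] at h9
    have h11 : (1 + ε) • y - y0 = (y - y0) + ε • y := by module
    rw [h11, map_add, map_smul] at h9
    refine ⟨(R1 ((1 + ε) • y) - R1 y) / ε, ?_⟩
    have h12 : ε • T y = (R1 ((1 + ε) • y) - R1 y) • D y := by
      rw [ssub, h9, h10]
      abel
    rw [div_eq_inv_mul, mul_smul, ← h12, smul_smul, inv_mul_cancel₀ hε.ne', one_smul]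
  choose! κ hκ using hmul
  have hD0 : ∀ y : E, y ≠ 0 → D y ≠ 0 := by
    intro y hy h8
    have h9 := (hD y hy).2
    rw [h8] at h9
    exact (norm_pos_iff.2 hy).ne h9
  have hy0b : ‖y0 - y0‖ < ρ / 2 := by
    rw [sub_self, norm_zero]
    linarith
  -- the constant
  have hz : ∀ y : E, ‖y - y0‖ < ρ / 2 →
      (R1 y - κ y) • D y = (R1 y0 - κ y0) • D y0 := by
    intro y hy
    rw [ssub, ssub, hΨ y hy, ← hκ y hy, ← hκ y0 hy0b, map_sub]
    abel
  have hz0 : R1 y0 - κ y0 = 0 := by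
    by_contra hne
    have h8 : ∀ y : E, ‖y - y0‖ < ρ / 2 → D y x0 = 0 := by
      intro y hy
      have h9 := congrArg (fun f : StrongDual ℝ E => f x0) (hz y hy)
      have h10 : (R1 y - κ y) * D y x0 = (R1 y0 - κ y0) * D y0 x0 := h9
      rw [h4, mul_zero] at h10
      refine (mul_eq_zero.1 h10).resolve_left fun h11 => ?_
      have h12 := hz y hy
      rw [h11, zero_smul] at h12
      exact (smul_ne_zero hne (hD0 y0 (hnz y0 hy00))) h12.symm
    have h9 := hNR y0 x0 (ρ / 2) (hnz y0 hy00) (by linarith) h8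
    rw [h9, norm_zero] at h1
    exact zero_ne_one h1
  refine ⟨min (ρ / 2) (1 / 4), R1, T, lt_min (by linarith) (by norm_num), min_le_right _ _, hTc,
    fun y hy => ?_⟩
  have hy1 := hy.trans_le (min_le_left _ _)
  refine ⟨(hR1 y (by linarith)).1, ?_⟩
  have h8 := hz y hy1
  rw [hz0, zero_smul] at h8
  have h9 : R1 y - κ y = 0 := (smul_eq_zero.1 h8).resolve_right (hD0 y (hnz y (by linarith)))
  rw [hκ y hy1, sub_eq_zero.1 h9]

end Pool.Agent.H66.SO.T.PEX

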