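import Pool.Agent.H66.SO.Stm
import Pool.Agent.Lead.BR.T.CONT
import Pool.Agent.Lead.BR.T.EQV

/-! # SO-POS (helper85) -/

set_option autoImplicit false

namespace Pool.Agent.H66.SO.T.POS

open TopologicalSpace Metric Filter Topology
open Pool.Agent.Lead.BR (Tr Sm NF Bo Orth Pairs Hilb)

theorem ne_zero_of_near {E : Type} [NormedAddCommGroup E] {z z0 : E} {δ : ℝ} (h0 : ‖z0‖ = 1)
    (hδ : δ ≤ 1 / 4) (h : ‖z - z0‖ < δ) : z ≠ 0 := by
  rintro rfl
  rw [zero_sub, norm_neg, h0] at h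
  linarith

/-- continuity of `z ↦ D z v` -/
theorem D_cont {E : Type} [NormedAddCommGroup E] [NormedSpace ℝ E] {D : E → StrongDual ℝ E}
    (hS : Sm E) (hD : NF D) {z : E} (hz : z ≠ 0) (v : E) : ContinuousAt (fun z => D z v) z := by
  rw [Metric.continuousAt_iff]
  intro ε hε
  obtain ⟨δ, hδ, h⟩ := Pool.Agent.Lead.BR.T.CON.main E D hS hD z v hz ε hε
  refine ⟨δ, hδ, fun {x} hx => ?_⟩
  rw [dist_eq_norm] at hx
  rw [Real.dist_eq]
  exact h x hx

/-- dual vectors for two independent functionals -/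
theorem dual2 {E : Type} [NormedAddCommGroup E] [NormedSpace ℝ E] {f g : StrongDual ℝ E}
    (h : LinearIndependent ℝ ![f, g]) :
    ∃ e1 e2 : E, f e1 = 1 ∧ f e2 = 0 ∧ g e1 = 0 ∧ g e2 = 1 := by
  have hli := LinearIndependent.pair_iff.1 h
  have hf : ∃ u, f u ≠ 0 := by
    by_contra hcon
    push Not at hcon
    have := hli 1 0 (by ext u; simp [hcon u])
    exact one_ne_zero this.1
  obtain ⟨u, hu⟩ := hf
  have hg : ∃ v, f v = 0 ∧ g v ≠ 0 := by
    by_contra hcon
    push Not at hcon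
    have h1 : ∀ z, g z = g u / f u * f z := by
      intro z
      have h2 := hcon (z - (f z / f u) • u) (by rw [map_sub, map_smul, smul_eq_mul]; field_simp; ring)
      rw [map_sub, map_smul, smul_eq_mul, sub_eq_zero] at h2
      rw [h2]; ring
    have := hli (-(g u / f u)) 1 (by
      ext z
      simp only [add_apply, smul_apply, zero_apply, smul_eq_mul]
      rw [h1 z]; ring)
    exact one_ne_zero this.2
  obtain ⟨v, hv1, hv2⟩ := hg
  refine ⟨(f u)⁻¹ • (u - (g u / g v) • v), (g v)⁻¹ • v, ?_, ?_, ?_, ?_⟩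
  · rw [map_smul, map_sub, map_smul, hv1, smul_zero, sub_zero, smul_eq_mul, inv_mul_cancel₀ hu]
  · rw [map_smul, hv1, smul_zero]
  · rw [map_smul, map_sub, map_smul, smul_eq_mul, smul_eq_mul, div_mul_cancel₀ _ hv2, sub_self,
      mul_zero]
  · rw [map_smul, smul_eq_mul, inv_mul_cancel₀ hv2]

/-- `D z u` is positive for `z`, `u` near `y0` -/
theorem pos_near {E : Type} [NormedAddCommGroup E] [NormedSpace ℝ E] {D : E → StrongDual ℝ E}
    (hD : NF D) {z u y0 : E} {δ : ℝ} (h0 : ‖y0‖ = 1) (hδ : δ ≤ 1 / 4) (hz : ‖z - y0‖ < δ)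
    (hu : ‖u - y0‖ < δ) : 0 < D z u := by
  have hz0 := ne_zero_of_near h0 hδ hz
  obtain ⟨h1, h2⟩ := hD z hz0
  have h3 := (D z).le_of_opNorm_le h1 (u - z)
  rw [one_mul, Real.norm_eq_abs, map_sub, h2] at h3
  have h4 := (abs_le.1 h3).1
  have h5 : ‖u - z‖ ≤ ‖u - y0‖ + ‖z - y0‖ := by
    have := norm_sub_le (u - y0) (z - y0)
    rwa [sub_sub_sub_cancel_right] at this
  have h6 : 1 ≤ ‖z‖ + ‖z - y0‖ := by
    have := norm_sub_le z (z - y0)
    rw [sub_sub_cancel, h0] at this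
    exact this
  linarith

theorem norm_D {E : Type} [NormedAddCommGroup E] [NormedSpace ℝ E] {D : E → StrongDual ℝ E}
    (hD : NF D) {z : E} (hz : z ≠ 0) : ‖D z‖ = 1 := by
  obtain ⟨h1, h2⟩ := hD z hz
  refine le_antisymm h1 ?_
  have h3 := (D z).le_opNorm z
  rw [h2, norm_norm] at h3
  exact le_of_mul_le_mul_right (by rwa [one_mul]) (norm_pos_iff.2 hz)

theorem near_comb {E : Type} [NormedAddCommGroup E] [NormedSpace ℝ E] {p q y0 : E} {δ s : ℝ}
    (hp : ‖p - y0‖ < δ) (hq : ‖q - y0‖ < δ) (h0 : 0 ≤ s) (h1 : s ≤ 1) :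
    ‖(1 - s) • p + s • q - y0‖ < δ := by
  have h := (convex_ball y0 δ) (show p ∈ ball y0 δ by rwa [mem_ball, dist_eq_norm])
    (show q ∈ ball y0 δ by rwa [mem_ball, dist_eq_norm]) (show (0 : ℝ) ≤ 1 - s by linarith) h0
    (by ring)
  rwa [mem_ball, dist_eq_norm] at h

/-- the second coefficient does not vanish -/
theorem beta_ne (hNFL : S_NFL) {E : Type} [NormedAddCommGroup E] [NormedSpace ℝ E]
    {D : E → StrongDual ℝ E} (hS : Sm E) (hD : NF D) (hNR : NR D) {x0 y0 : E} {δ : ℝ}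
    (hLoc : Loc D x0 y0 δ) {p q x1 : E} (hp : ‖p - y0‖ < δ) (hq : ‖q - y0‖ < δ)
    (hx1 : ‖x1 - x0‖ < δ) (hpx : D p x1 = 0) (hqx : D q x1 = 0)
    (hind : LinearIndependent ℝ ![D p, D q]) {s : ℝ} (h0 : 0 < s) (h1 : s < 1) {α β : ℝ}
    (h : D ((1 - s) • p + s • q) = α • D p + β • D q) : β ≠ 0 := by
  rintro rfl
  have hy0 := hLoc.2.1
  have hδ4 := hLoc.2.2.2.2.2.1
  have hz := near_comb hp hq h0.le h1.le
  have hp0 := ne_zero_of_near hy0 hδ4 hp
  have hq0 := ne_zero_of_near hy0 hδ4 hq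
  have hz0 := ne_zero_of_near hy0 hδ4 hz
  rw [zero_smul, add_zero] at h
  have hyy : ‖y0 - y0‖ < δ := by rw [sub_self, norm_zero]; exact hLoc.2.2.2.2.1
  have k1 := pos_near hD hy0 hδ4 hz hyy
  have k2 := pos_near hD hy0 hδ4 hp hyy
  rw [h, smul_apply, smul_eq_mul] at k1
  have hα : 0 < α := (pos_iff_pos_of_mul_pos k1).2 k2
  have hα1 : α = 1 := by
    have h2 := norm_D hD hz0
    rw [h, norm_smul, norm_D hD hp0, mul_one, Real.norm_of_nonneg hα.le] at h2
    exact h2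
  rw [hα1, one_smul] at h
  have h3 := hNFL E D hS hD hNR x0 y0 δ hLoc p _ q x1 hp hz hq hx1 h.symm hpx hqx hind
  -- `q` is a multiple of `p`
  have hnp : 0 < ‖p‖ := norm_pos_iff.2 hp0
  obtain ⟨c, hc⟩ : ∃ c : ℝ, q = c • p := by
    refine ⟨(‖p‖ * s)⁻¹ * (‖(1 - s) • p + s • q‖ - ‖p‖ * (1 - s)), ?_⟩
    have h4 : (‖p‖ * s) • q = (‖(1 - s) • p + s • q‖ - ‖p‖ * (1 - s)) • p := by
      rw [sub_smul, h3, smul_add, smul_smul, smul_smul]
      abel
    rw [← smul_smul, ← h4, smul_smul, inv_mul_cancel₀ (mul_pos hnp h0).ne', one_smul]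
  have h5 := pos_near hD hy0 hδ4 hp hq
  rw [hc, map_smul, (hD p hp0).2, smul_eq_mul] at h5
  have hc0 : 0 < c := (pos_iff_pos_of_mul_pos h5).2 hnp
  have h6 : D q = D p := by
    rw [hc]
    exact (Pool.Agent.Lead.BR.T.EQV.main E D hS hD).2 c p hc0 hp0
  rw [h6] at hind
  have h7 := (LinearIndependent.pair_iff.1 hind) 1 (-1) (by rw [one_smul, neg_smul, one_smul, add_neg_cancel])
  exact one_ne_zero h7.1

theorem main : S_SPN → S_NFL → S_POS := by
  intro hSPN hNFL E _ _ D hS hD hNR x0 y0 δ hLoc p q x1 hp hq hx1 hpx hqx hind a b ha hb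
  have hy0 := hLoc.2.1
  have hδ4 := hLoc.2.2.2.2.2.1
  obtain ⟨e1, e2, h1, h2, h3, h4⟩ := dual2 hind
  have hz : ∀ s : ℝ, 0 ≤ s → s ≤ 1 → ‖(1 - s) • p + s • q - y0‖ < δ := fun s h0 h1 =>
    near_comb hp hq h0 h1
  -- the decomposition
  have hdec : ∀ s : ℝ, 0 ≤ s → s ≤ 1 → D ((1 - s) • p + s • q) =
      D ((1 - s) • p + s • q) e1 • D p + D ((1 - s) • p + s • q) e2 • D q := by
    intro s h0s hs1
    obtain ⟨-, α, β, h⟩ := hSPN E D hS hD x0 y0 δ hLoc p q x1 hp hq hx1 hpx hqx (1 - s) s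
      (by linarith) h0s (by linarith)
    have hα : D ((1 - s) • p + s • q) e1 = α := by
      rw [h, add_apply, smul_apply, smul_apply, h1, h3, smul_eq_mul, smul_eq_mul]
      ring
    have hβ : D ((1 - s) • p + s • q) e2 = β := by
      rw [h, add_apply, smul_apply, smul_apply, h2, h4, smul_eq_mul, smul_eq_mul]
      ring
    rw [hα, hβ]
    exact h
  have hcont : ∀ e : E, ContinuousOn (fun s : ℝ => D ((1 - s) • p + s • q) e) (Set.Icc 0 1) := by
    intro e s hs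
    have c1 : ContinuousAt (fun s : ℝ => (1 - s) • p + s • q) s := by fun_prop
    exact (ContinuousAt.comp (f := fun s : ℝ => (1 - s) • p + s • q) (g := fun z => D z e)
      (D_cont hS hD (ne_zero_of_near hy0 hδ4 (hz s hs.1 hs.2)) e) c1).continuousWithinAt
  have hβne : ∀ s : ℝ, 0 < s → s < 1 → D ((1 - s) • p + s • q) e2 ≠ 0 := fun s h0 h1 =>
    beta_ne hNFL hS hD hNR hLoc hp hq hx1 hpx hqx hind h0 h1 (hdec s h0.le h1.le)
  have hind' : LinearIndependent ℝ ![D q, D p] := by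
    rw [LinearIndependent.pair_iff] at hind ⊢
    intro s t hst
    have := hind t s (by rw [add_comm]; exact hst)
    exact ⟨this.2, this.1⟩
  have hαne : ∀ s : ℝ, 0 < s → s < 1 → D ((1 - s) • p + s • q) e1 ≠ 0 := by
    intro s h0 h1
    have h5 := hdec s h0.le h1.le
    refine beta_ne hNFL hS hD hNR hLoc hq hp hx1 hqx hpx hind' (s := 1 - s) (by linarith)
      (by linarith) (α := D ((1 - s) • p + s • q) e2) ?_
    have e : (1 - (1 - s)) • q + (1 - s) • p = (1 - s) • p + s • q := by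
      rw [sub_sub_cancel, add_comm]
    rw [e, add_comm (_ • D q)]
    exact h5
  have hβpos : ∀ s : ℝ, 0 < s → s < 1 → 0 < D ((1 - s) • p + s • q) e2 := by
    intro s h0 h1s
    by_contra hcon
    push Not at hcon
    have h5 := intermediate_value_Icc (f := fun s : ℝ => D ((1 - s) • p + s • q) e2) h1s.le
      ((hcont e2).mono (Set.Icc_subset_Icc h0.le le_rfl))
    obtain ⟨t, ht, ht0⟩ := h5 (show (0 : ℝ) ∈ Set.Icc _ _ by
      refine ⟨hcon, ?_⟩
      simp only [sub_self, zero_smul, one_smul, zero_add, h4]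
      exact zero_le_one)
    rcases eq_or_lt_of_le ht.2 with h6 | h6
    · rw [h6] at ht0
      simp only [sub_self, zero_smul, one_smul, zero_add, h4] at ht0
      exact one_ne_zero ht0
    · exact hβne t (h0.trans_le ht.1) h6 ht0
  have hαpos : ∀ s : ℝ, 0 < s → s < 1 → 0 < D ((1 - s) • p + s • q) e1 := by
    intro s h0 h1s
    by_contra hcon
    push Not at hcon
    have h5 := intermediate_value_Icc' (f := fun s : ℝ => D ((1 - s) • p + s • q) e1) h0.le
      ((hcont e1).mono (Set.Icc_subset_Icc le_rfl h1s.le))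
    obtain ⟨t, ht, ht0⟩ := h5 (show (0 : ℝ) ∈ Set.Icc _ _ by
      refine ⟨hcon, ?_⟩
      simp only [sub_zero, zero_smul, one_smul, add_zero, h1]
      exact zero_le_one)
    rcases eq_or_lt_of_le ht.1 with h6 | h6
    · rw [← h6] at ht0
      simp only [sub_zero, zero_smul, one_smul, add_zero, h1] at ht0
      exact one_ne_zero ht0
    · exact hαne t h6 (ht.2.trans_lt h1s) ht0
  -- conclusion
  obtain ⟨s, hs⟩ : ∃ s : ℝ, s = b / (a + b) := ⟨_, rfl⟩
  have hab : 0 < a + b := by linarith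
  have hs0 : 0 < s := by rw [hs]; exact div_pos hb hab
  have hs1 : s < 1 := by rw [hs, div_lt_one hab]; linarith
  have e1' : a • p + b • q = (a + b) • ((1 - s) • p + s • q) := by
    rw [smul_add, smul_smul, smul_smul, hs]
    congr 2
    · field_simp
      ring
    · field_simp
  refine ⟨D ((1 - s) • p + s • q) e1, D ((1 - s) • p + s • q) e2, hαpos s hs0 hs1, hβpos s hs0 hs1, ?_⟩
  rw [e1', (Pool.Agent.Lead.BR.T.EQV.main E D hS hD).2 (a + b) _ hab
    (ne_zero_of_near hy0 hδ4 (hz s hs0.le hs1.le))]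
  exact hdec s hs0.le hs1.le

end Pool.Agent.H66.SO.T.POS
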