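import Pool.Agent.H66.SO.Stm

/-!
# Project SO, stub QUD: the square of the norm is quadratic along short lines
-/

set_option autoImplicit false

namespace Pool.Agent.H66.SO.T.QUD

open Pool.Agent.Lead.BR (Tr Sm NF Bo Orth Pairs Hilb)

theorem main : S_DIF → S_QUD := by
  intro hDIF E _ _ D hSm hNF y0 ρ μ T hy0 hρ hρ4 hT hsym u
  have hTpos : ∀ y : E, ‖y - y0‖ < ρ → y ≠ 0 ∧ 0 < T y y ∧ T y y = μ y * ‖y‖ := by
    intro y hy
    have hyn : 0 < ‖y‖ := by
      have h3 := norm_sub_norm_le y0 y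
      rw [norm_sub_rev, hy0] at h3
      linarith
    obtain ⟨hμ, hTy⟩ := hT y hy
    have hy' : y ≠ 0 := norm_pos_iff.mp hyn
    have hv : T y y = μ y * ‖y‖ := by
      rw [← hTy, ContinuousLinearMap.smul_apply, (hNF y hy').2, smul_eq_mul]
    exact ⟨hy', hv ▸ mul_pos hμ hyn, hv⟩
  have h00 : 0 < T y0 y0 := (hTpos y0 (by simpa using hρ)).2.1
  let r : ℝ := ρ / (‖u‖ + 1)
  have hu1 : 0 < ‖u‖ + 1 := by positivity
  have hr : 0 < r := by positivity
  have hball : ∀ t : ℝ, |t| < r → ‖(y0 + t • u) - y0‖ < ρ := by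
    intro t ht
    rw [add_sub_cancel_left, norm_smul, Real.norm_eq_abs]
    have h1 : |t| * (‖u‖ + 1) < ρ := by
      rwa [lt_div_iff₀ hu1] at ht
    have h2 : |t| * ‖u‖ ≤ |t| * (‖u‖ + 1) := by
      have := abs_nonneg t
      nlinarith [norm_nonneg u]
    linarith
  let q : ℝ → ℝ := fun t => T y0 y0 + (T y0 u + T u y0) * t + T u u * t ^ 2
  have hq : ∀ t : ℝ, T (y0 + t • u) (y0 + t • u) = q t := by
    intro t
    simp only [q, map_add, map_smul, ContinuousLinearMap.add_apply, ContinuousLinearMap.smul_apply,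
      smul_eq_mul]
    ring
  have hqpos : ∀ t : ℝ, |t| < r → 0 < q t := fun t ht => by
    rw [← hq]
    exact (hTpos _ (hball t ht)).2.1
  have hderN : ∀ t : ℝ, |t| < r →
      HasDerivAt (fun s : ℝ => ‖y0 + s • u‖) (D (y0 + t • u) u) t := by
    intro t ht
    have h1 := hDIF E D hSm hNF (y0 + t • u) u (hTpos _ (hball t ht)).1
    have h2 : HasDerivAt (fun s : ℝ => s - t) 1 t := (hasDerivAt_id t).sub_const t
    have h3 := HasDerivAt.scomp t (h := fun s : ℝ => s - t) (g₁ := fun s : ℝ =>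
      ‖(y0 + t • u) + s • u‖) (by simpa using h1) h2
    rw [one_smul] at h3
    refine h3.congr_of_eventuallyEq (Filter.Eventually.of_forall fun s => ?_)
    change ‖y0 + s • u‖ = ‖y0 + t • u + (s - t) • u‖
    rw [add_assoc, ← add_smul, add_sub_cancel]
  have hderq : ∀ t : ℝ, HasDerivAt q (2 * T (y0 + t • u) u) t := by
    intro t
    have h1 : HasDerivAt q ((T y0 u + T u y0) * 1 + T u u * (2 * t)) t := by
      have h2 := ((hasDerivAt_id t).const_mul (T y0 u + T u y0)).const_add (T y0 y0)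
      have h3 := ((hasDerivAt_pow 2 t).const_mul (T u u))
      have h4 := h2.add h3
      simp only [Nat.cast_ofNat, Nat.add_one_sub_one, pow_one] at h4
      exact h4
    convert h1 using 1
    simp only [map_add, map_smul, ContinuousLinearMap.add_apply, ContinuousLinearMap.smul_apply,
      smul_eq_mul]
    rw [hsym u y0]
    ring
  -- the quotient is constant
  let F : ℝ → ℝ := fun t => ‖y0 + t • u‖ ^ 2 / q t
  have hF : ∀ t : ℝ, |t| < r → HasDerivAt F 0 t := by
    intro t ht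
    have h1 := ((hderN t ht).pow 2).div (hderq t) (hqpos t ht).ne'
    obtain ⟨hne, _, hval⟩ := hTpos _ (hball t ht)
    obtain ⟨_, hTy⟩ := hT _ (hball t ht)
    have h2 : T (y0 + t • u) u = μ (y0 + t • u) * D (y0 + t • u) u := by
      rw [← hTy, ContinuousLinearMap.smul_apply, smul_eq_mul]
    have h5 : (((2 : ℕ) : ℝ) * ‖y0 + t • u‖ ^ (2 - 1) * (D (y0 + t • u)) u * q t -
        ‖y0 + t • u‖ ^ 2 * (2 * (T (y0 + t • u)) u)) / q t ^ 2 = 0 := by
      rw [div_eq_zero_iff]
      left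
      rw [← hq t, hval, h2]
      simp only [Nat.cast_ofNat, Nat.add_one_sub_one, pow_one]
      ring
    have h6 : HasDerivAt F ((((2 : ℕ) : ℝ) * ‖y0 + t • u‖ ^ (2 - 1) * (D (y0 + t • u)) u * q t -
        ‖y0 + t • u‖ ^ 2 * (2 * (T (y0 + t • u)) u)) / q t ^ 2) t := h1
    rwa [h5] at h6
  have hconst : ∀ t : ℝ, |t| < r → F t = F 0 := by
    intro t ht
    have hopen : IsOpen (Set.Ioo (-r) r) := isOpen_Ioo
    refine hopen.is_const_of_deriv_eq_zero isPreconnected_Ioo (f := F) (fun s hs => ?_)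
      (fun s hs => ?_) (abs_lt.mp ht) ⟨by linarith, hr⟩
    · exact (hF s (abs_lt.mpr hs)).differentiableAt.differentiableWithinAt
    · exact (hF s (abs_lt.mpr hs)).deriv
  refine ⟨r, (T y0 u + T u y0) / T y0 y0, T u u / T y0 y0, hr, fun t ht => ?_⟩
  have h1 := hconst t ht
  have h2 : F 0 = 1 / T y0 y0 := by
    simp only [F, q, zero_smul, add_zero, hy0, mul_zero]
    norm_num
  rw [h2] at h1
  have h3 := hqpos t ht
  have h4 : ‖y0 + t • u‖ ^ 2 = q t / T y0 y0 := by
    simp only [F] at h1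
    rw [div_eq_div_iff h3.ne' h00.ne', one_mul] at h1
    rw [eq_div_iff h00.ne', h1]
  rw [h4]
  simp only [q]
  field_simp

end Pool.Agent.H66.SO.T.QUD
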