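import Pool.Agent.H66.SO.Stm
import Pool.Agent.Lead.BR.T.CONT

/-! # SO-RAT (helper85) -/

set_option autoImplicit false

namespace Pool.Agent.H66.SO.T.RAT

open TopologicalSpace Metric Filter Topology
open Pool.Agent.Lead.BR (Tr Sm NF Bo Orth Pairs Hilb)

theorem ne_zero_of_near {E : Type} [NormedAddCommGroup E] {z z0 : E} {δ : ℝ} (h0 : ‖z0‖ = 1)
    (hδ : δ ≤ 1 / 4) (h : ‖z - z0‖ < δ) : z ≠ 0 := by
  rintro rfl
  rw [zero_sub, norm_neg, h0] at h
  linarith

theorem vec2 {E F : Type} (D : E → F) (p w : E) : (fun i => D (![p, w] i)) = ![D p, D w] := by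
  funext i
  fin_cases i <;> rfl

/-- continuity of `z ↦ D z v` -/
theorem D_cont {E : Type} [NormedAddCommGroup E] [NormedSpace ℝ E] {D : E → StrongDual ℝ E}
    (hS : Sm E) (hD : NF D) {z : E} (hz : z ≠ 0) (v : E) : ContinuousAt (fun z => D z v) z := by
  rw [Metric.continuousAt_iff]
  intro ε hε
  obtain ⟨δ, hδ, h⟩ := Pool.Agent.Lead.BR.T.CON.main E D hS hD z v hz ε hε
  refine ⟨δ, hδ, fun {x} hx => ?_⟩
  rw [dist_eq_norm] at hx
  rw [Real.dist_eq]
  exact h x hx

/-- dual vectors for two independent functionals -/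
theorem dual2 {E : Type} [NormedAddCommGroup E] [NormedSpace ℝ E] {f g : StrongDual ℝ E}
    (h : LinearIndependent ℝ ![f, g]) :
    ∃ e1 e2 : E, f e1 = 1 ∧ f e2 = 0 ∧ g e1 = 0 ∧ g e2 = 1 := by
  have hli := LinearIndependent.pair_iff.1 h
  -- a vector with `f ≠ 0`
  have hf : ∃ u, f u ≠ 0 := by
    by_contra hcon
    push Not at hcon
    have := hli 1 0 (by ext u; simp [hcon u])
    exact one_ne_zero this.1
  obtain ⟨u, hu⟩ := hf
  -- a vector with `f = 0`, `g ≠ 0`
  have hg : ∃ v, f v = 0 ∧ g v ≠ 0 := by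
    by_contra hcon
    push Not at hcon
    have h1 : ∀ z, g z = g u / f u * f z := by
      intro z
      have h2 := hcon (z - (f z / f u) • u) (by rw [map_sub, map_smul, smul_eq_mul]; field_simp; ring)
      rw [map_sub, map_smul, smul_eq_mul, sub_eq_zero] at h2
      rw [h2]; ring
    have := hli (-(g u / f u)) 1 (by
      ext z
      simp only [add_apply, smul_apply, zero_apply, smul_eq_mul]
      rw [h1 z]; ring)
    exact one_ne_zero this.2
  obtain ⟨v, hv1, hv2⟩ := hg
  refine ⟨(f u)⁻¹ • (u - (g u / g v) • v), (g v)⁻¹ • v, ?_, ?_, ?_, ?_⟩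
  · rw [map_smul, map_sub, map_smul, hv1, smul_zero, sub_zero, smul_eq_mul, inv_mul_cancel₀ hu]
  · rw [map_smul, hv1, smul_zero]
  · rw [map_smul, map_sub, map_smul, smul_eq_mul, smul_eq_mul, div_mul_cancel₀ _ hv2, sub_self,
      mul_zero]
  · rw [map_smul, smul_eq_mul, inv_mul_cancel₀ hv2]

theorem main : S_ROB → S_RAT := by
  classical
  intro hROB E _ _ D hS hD x0 y0 δ hLoc hPos b y1 hb hy1 hbx hyx hind
  obtain ⟨hx0, hy0, _, _, hδ, hδ4, hloc⟩ := hLoc
  have hb0 := ne_zero_of_near hy0 hδ4 hb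
  have hy10 := ne_zero_of_near hy0 hδ4 hy1
  obtain ⟨ρ, hρ, hR⟩ := hROB E D hS hD 2 ![b, y1] x0 δ hδ
    (by intro i; fin_cases i <;> simpa) (by rw [vec2]; exact hind)
    (by intro i; fin_cases i <;> simpa)
  -- existence of the ratio near `y1`
  have hex : ∀ y : E, ‖y - y1‖ < min ρ (δ - ‖y1 - y0‖) → ∃ r : ℝ, Rat D b y r := by
    intro y hy
    have hyρ : ‖y - y1‖ < ρ := hy.trans_le (min_le_left _ _)
    have hyδ : ‖y - y0‖ < δ := by
      have h1 : ‖y - y1‖ < δ - ‖y1 - y0‖ := hy.trans_le (min_le_right _ _)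
      have h2 : ‖y - y0‖ ≤ ‖y - y1‖ + ‖y1 - y0‖ := norm_sub_le_norm_sub_add_norm_sub y y1 y0
      linarith
    obtain ⟨hli, x', hx', hx'0⟩ := hR ![b, y] (by
      intro i
      fin_cases i
      · simpa using hρ
      · simpa using hyρ)
    rw [vec2] at hli
    obtain ⟨α, β, hα, hβ, h⟩ := hPos b y x' hb hyδ hx' (hx'0 0) (hx'0 1) hli 1 1 one_pos one_pos
    rw [one_smul, one_smul] at h
    refine ⟨β / α, div_pos hβ hα, α, hα, ?_⟩
    rw [h, smul_add, smul_smul, mul_div_cancel₀ _ hα.ne']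
  obtain ⟨e1, e2, h1, h2, h3, h4⟩ := dual2 hind
  refine ⟨min ρ (δ - ‖y1 - y0‖), lt_min hρ (by linarith),
    fun y => if h : ∃ r : ℝ, Rat D b y r then h.choose else 1, fun y hy => ?_, fun e => ?_⟩
  · have h := hex y hy
    simp only [h, dite_true]
    exact h.choose_spec
  · -- continuity
    have hby : b + y1 ≠ 0 := by
      intro h0
      have h5 : ‖(b + y1) - (y0 + y0)‖ < 1 / 2 := by
        have e : (b + y1) - (y0 + y0) = (b - y0) + (y1 - y0) := by abel
        rw [e]
        refine (norm_add_le _ _).trans_lt ?_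
        linarith
      rw [h0, zero_sub, norm_neg, ← two_smul ℝ y0, norm_smul, hy0] at h5
      norm_num at h5
    have c1 : ContinuousAt (fun y => D y e1) y1 := D_cont hS hD hy10 e1
    have c2 : ContinuousAt (fun y => D y e2) y1 := D_cont hS hD hy10 e2
    have c0 : ContinuousAt (fun y => D y e) y1 := D_cont hS hD hy10 e
    have cadd : ContinuousAt (fun y : E => b + y) y1 := (continuous_const.add continuous_id).continuousAt
    have c3 : ContinuousAt (fun y => D (b + y) e1) y1 :=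
      ContinuousAt.comp (f := fun y : E => b + y) (g := fun z => D z e1) (D_cont hS hD hby e1) cadd
    have c4 : ContinuousAt (fun y => D (b + y) e2) y1 :=
      ContinuousAt.comp (f := fun y : E => b + y) (g := fun z => D z e2) (D_cont hS hD hby e2) cadd
    -- the denominator at `y1`
    obtain ⟨r0, hr0, c, hc, hrc⟩ := hex y1 (by rw [sub_self, norm_zero]; exact lt_min hρ (by linarith))
    have hden : D (b + y1) e1 * D y1 e2 - D (b + y1) e2 * D y1 e1 ≠ 0 := by
      rw [hrc]
      simp only [smul_apply, add_apply, smul_eq_mul, h1, h2, h3, h4]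
      have : c * (1 + r0 * 0) * 1 - c * (0 + r0 * 1) * 0 = c := by ring
      rw [this]
      exact hc.ne'
    have c5 : ContinuousAt (fun y => D (b + y) e2 /
        (D (b + y) e1 * D y e2 - D (b + y) e2 * D y e1) * D y e) y1 :=
      (c4.div ((c3.mul c2).sub (c4.mul c1)) hden).mul c0
    refine c5.congr_of_eventuallyEq ?_
    have hdc : ContinuousAt (fun y => D (b + y) e1 * D y e2 - D (b + y) e2 * D y e1) y1 :=
      (c3.mul c2).sub (c4.mul c1)
    have hball : ∀ᶠ y in 𝓝 y1, ‖y - y1‖ < min ρ (δ - ‖y1 - y0‖) := by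
      have := ball_mem_nhds y1 (show 0 < min ρ (δ - ‖y1 - y0‖) from lt_min hρ (by linarith))
      filter_upwards [this] with y hy
      rwa [mem_ball, dist_eq_norm] at hy
    filter_upwards [hball, hdc.eventually_ne hden] with y hy hny
    have h := hex y hy
    simp only [h, dite_true]
    obtain ⟨hr, c', hc', hrc'⟩ := h.choose_spec
    obtain ⟨r, hrr⟩ : ∃ r : ℝ, r = h.choose := ⟨_, rfl⟩
    rw [← hrr] at hrc' ⊢
    congr 1
    rw [eq_div_iff hny, hrc']
    simp only [smul_apply, add_apply, smul_eq_mul, h1, h2]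
    ring

end Pool.Agent.H66.SO.T.RAT
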