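import Pool.Agent.H66.SO.Stm
import Pool.Agent.Lead.BR.T.CONT
import Pool.Agent.Lead.BR.T.EQV

/-! # SO-REG (helper75) -/

set_option autoImplicit false

namespace Pool.Agent.H66.SO.T.REG

open TopologicalSpace Metric Filter Topology
open Pool.Agent.Lead.BR (Tr Sm NF Bo Orth Pairs Hilb)

variable {E : Type} [NormedAddCommGroup E] [NormedSpace ℝ E] {D : E → StrongDual ℝ E}

/-- the directions which are flat near `z` -/
def R (D : E → StrongDual ℝ E) (z e : E) : Prop :=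
  ∃ r : ℝ, 0 < r ∧ ∀ y : E, ‖y - z‖ < r → D y e = 0

theorem loc_symm {x0 y0 : E} {δ : ℝ} (h : Loc D x0 y0 δ) : Loc D y0 x0 δ := by
  obtain ⟨h1, h2, h3, h4, h5, h6, h7⟩ := h
  exact ⟨h2, h1, h4, h3, h5, h6, fun x y hx hy => (h7 y x hy hx).symm⟩

omit [NormedSpace ℝ E] in
theorem ne_zero_of_near {y0 y : E} {δ : ℝ} (h1 : ‖y0‖ = 1) (hδ : δ ≤ 1 / 4)
    (h : ‖y - y0‖ < δ) : y ≠ 0 := by
  rintro rfl
  rw [zero_sub, norm_neg, h1] at h
  linarith

theorem R_of_R (hS : Sm E) (hD : NF D) (hF : S_FLT) {x0 y0 : E} {δ : ℝ} (h : Loc D x0 y0 δ)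
    {x y e : E} (hx : ‖x - x0‖ < δ) (hy : ‖y - y0‖ < δ) (hxy : D x y = 0) (he : R D y e) :
    R D x e := by
  obtain ⟨h1, h2, h3, h4, h5, h6, h7⟩ := h
  obtain ⟨r, hr, hre⟩ := he
  have hx0 : x ≠ 0 := ne_zero_of_near h1 h6 hx
  obtain ⟨ε, hεp, hε1, hε2⟩ : ∃ ε : ℝ, 0 < ε ∧ 2 * ε ≤ r ∧ 2 * ε ≤ δ - ‖y - y0‖ := by
    refine ⟨min (r / 2) ((δ - ‖y - y0‖) / 2), lt_min (by linarith) (by linarith), ?_, ?_⟩
    · have := min_le_left (r / 2) ((δ - ‖y - y0‖) / 2)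
      linarith
    · have := min_le_right (r / 2) ((δ - ‖y - y0‖) / 2)
      linarith
  obtain ⟨η, hη, hc⟩ := Pool.Agent.Lead.BR.T.CON.main E D hS hD x y hx0 ε hεp
  refine ⟨min η (δ - ‖x - x0‖), lt_min hη (by linarith), fun x' hx' => ?_⟩
  have hx'1 : ‖x' - x‖ < η := hx'.trans_le (min_le_left _ _)
  have hx'2 : ‖x' - x0‖ < δ := by
    have := hx'.trans_le (min_le_right _ _)
    have h8 : ‖x' - x0‖ ≤ ‖x' - x‖ + ‖x - x0‖ := norm_sub_le_norm_sub_add_norm_sub _ _ _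
    linarith
  have hx'0 : x' ≠ 0 := ne_zero_of_near h1 h6 hx'2
  have hn : 0 < ‖x'‖ := norm_pos_iff.2 hx'0
  have hc' := hc x' hx'1
  rw [hxy, sub_zero] at hc'
  obtain ⟨y', hy'⟩ : ∃ y', y' = y - (D x' y / ‖x'‖) • x' := ⟨_, rfl⟩
  have hDy' : D x' y' = 0 := by
    rw [hy', map_sub, map_smul, smul_eq_mul, (hD x' hx'0).2, div_mul_cancel₀ _ hn.ne', sub_self]
  have hny' : ‖y' - y‖ < ε := by
    rw [hy', sub_sub_cancel_left, norm_neg, norm_smul, norm_div, norm_norm, Real.norm_eq_abs,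
      div_mul_cancel₀ _ hn.ne']
    exact hc'
  obtain ⟨t, ht, ht1⟩ : ∃ t : ℝ, 0 < t ∧ t * ‖e‖ < ε := by
    refine ⟨ε / (‖e‖ + 1), by positivity, ?_⟩
    have h8 : 0 < ‖e‖ + 1 := by positivity
    rw [div_mul_eq_mul_div, div_lt_iff₀ h8]
    nlinarith [norm_nonneg e]
  have hte : ‖t • e‖ < ε := by
    rw [norm_smul, Real.norm_of_nonneg ht.le]
    exact ht1
  have hy'y0 : ‖y' - y0‖ < δ := by
    have h8 : ‖y' - y0‖ ≤ ‖y' - y‖ + ‖y - y0‖ := norm_sub_le_norm_sub_add_norm_sub _ _ _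
    linarith
  have hyx' : D y' x' = 0 := (h7 x' y' hx'2 hy'y0).1 hDy'
  have e0 : ‖y' + t • e - y‖ < 2 * ε := by
    have h8 : y' + t • e - y = (y' - y) + t • e := by abel
    rw [h8]
    have h9 := norm_add_le (y' - y) (t • e)
    linarith
  have e2 : ‖y' + t • e - y0‖ < δ := by
    have h8 : ‖y' + t • e - y0‖ ≤ ‖y' + t • e - y‖ + ‖y - y0‖ :=
      norm_sub_le_norm_sub_add_norm_sub _ _ _
    linarith
  have f1 : D (y' + t • e) (t • e) = 0 := by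
    rw [map_smul, hre _ (by linarith), smul_zero]
  have f2 : D y' (t • e) = 0 := by
    rw [map_smul, hre _ (by linarith), smul_zero]
  have f3 := (hF E D hS hD y' (t • e) (ne_zero_of_near h2 h6 hy'y0)
    (ne_zero_of_near h2 h6 e2) f2 f1).2
  have f4 : D (y' + t • e) x' = 0 := by rw [f3, hyx']
  have f5 : D x' (y' + t • e) = 0 := (h7 x' _ hx'2 e2).2 f4
  rw [map_add, hDy', zero_add, map_smul, smul_eq_mul] at f5
  exact (mul_eq_zero.1 f5).resolve_left ht.ne'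

/-- near `y0` the flat directions do not decrease -/
theorem R_near (hS : Sm E) (hD : NF D) (hR : S_ROB) (hF : S_FLT) {x0 y0 a : E} {δ : ℝ}
    (h : Loc D x0 y0 δ) (ha : ‖a - y0‖ < δ) (hxa : D x0 a = 0)
    (hli : LinearIndependent ℝ ![D y0, D a]) :
    ∃ ρ : ℝ, 0 < ρ ∧ ∀ y e : E, ‖y - y0‖ < ρ → R D y0 e → R D y e := by
  have h' := loc_symm h
  obtain ⟨h1, h2, h3, h4, h5, h6, h7⟩ := id h
  have hx00 : ‖x0 - x0‖ < δ := by rw [sub_self, norm_zero]; exact h5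
  have hy00 : ‖y0 - y0‖ < δ := by rw [sub_self, norm_zero]; exact h5
  have hax : D a x0 = 0 := (h7 x0 a hx00 ha).1 hxa
  have hl2 : LinearIndependent ℝ (fun i => D ((![y0, a] : Fin 2 → E) i)) := by
    have h8 : (fun i => D ((![y0, a] : Fin 2 → E) i)) = ![D y0, D a] := by
      funext i
      fin_cases i <;> rfl
    rw [h8]
    exact hli
  obtain ⟨ρ, hρ, hh⟩ := hR E D hS hD 2 ![y0, a] x0 δ h5
    (by
      intro i
      fin_cases i
      · exact ne_zero_of_near h2 h6 hy00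
      · exact ne_zero_of_near h2 h6 ha) hl2
    (by
      intro i
      fin_cases i
      · exact h4
      · exact hax)
  refine ⟨min ρ δ, lt_min hρ h5, fun y e hy he => ?_⟩
  have hyρ := hy.trans_le (min_le_left _ _)
  have hyδ := hy.trans_le (min_le_right _ _)
  obtain ⟨-, x', hx', hx'2⟩ := hh ![y, a] (by
    intro i
    fin_cases i
    · exact hyρ
    · show ‖a - a‖ < ρ
      rw [sub_self, norm_zero]
      exact hρ)
  have g1 : D y x' = 0 := hx'2 0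
  have g2 : D a x' = 0 := hx'2 1
  have g3 : D x' a = 0 := (h7 x' a hx' ha).2 g2
  have s1 : R D x0 e := R_of_R hS hD hF h hx00 hy00 h3 he
  have s2 : R D a e := R_of_R hS hD hF h' ha hx00 hax s1
  have s3 : R D x' e := R_of_R hS hD hF h hx' ha g3 s2
  exact R_of_R hS hD hF h' hyδ hx' g1 s3

theorem R_map (hS : Sm E) (hD : NF D) (T : E ≃ₗᵢ[ℝ] E) {z e : E} (hz : z ≠ 0) (h : R D z e) :
    R D (T z) (T e) := by
  obtain ⟨r, hr, hre⟩ := h
  refine ⟨min r ‖z‖, lt_min hr (norm_pos_iff.2 hz), fun y hy => ?_⟩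
  have hy1 := hy.trans_le (min_le_left _ _)
  have hy2 := hy.trans_le (min_le_right _ _)
  have h1 : T.symm y ≠ 0 := by
    intro h2
    have h3 : y = 0 := by
      have := congrArg T h2
      rwa [LinearIsometryEquiv.apply_symm_apply, map_zero] at this
    rw [h3, zero_sub, norm_neg, T.norm_map] at hy2
    exact lt_irrefl _ hy2
  have h4 := (Pool.Agent.Lead.BR.T.EQV.main E D hS hD).1 T (T.symm y) e h1
  rw [LinearIsometryEquiv.apply_symm_apply] at h4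
  rw [h4]
  apply hre
  have h5 : T.symm y - z = T.symm (y - T z) := by
    rw [map_sub, LinearIsometryEquiv.symm_apply_apply]
  rw [h5, T.symm.norm_map]
  exact hy1

theorem R_smul (hS : Sm E) (hD : NF D) {z e : E} {c : ℝ} (hc : 0 < c) (hz : z ≠ 0)
    (h : R D z e) : R D (c • z) e := by
  obtain ⟨r, hr, hre⟩ := h
  have hzn := norm_pos_iff.2 hz
  refine ⟨c * min r ‖z‖, mul_pos hc (lt_min hr hzn), fun y hy => ?_⟩
  have h1 : y = c • (c⁻¹ • y) := by rw [smul_smul, mul_inv_cancel₀ hc.ne', one_smul]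
  have h2 : ‖c⁻¹ • y - z‖ < min r ‖z‖ := by
    have h3 : c⁻¹ • y - z = c⁻¹ • (y - c • z) := by
      rw [smul_sub, smul_smul, inv_mul_cancel₀ hc.ne', one_smul]
    rw [h3, norm_smul, Real.norm_of_nonneg (inv_pos.2 hc).le, inv_mul_lt_iff₀ hc]
    exact hy
  have h4 : c⁻¹ • y ≠ 0 := by
    intro h5
    rw [h5, zero_sub, norm_neg] at h2
    exact lt_irrefl _ (h2.trans_le (min_le_right _ _))
  rw [h1, (Pool.Agent.Lead.BR.T.EQV.main E D hS hD).2 c (c⁻¹ • y) hc h4]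
  exact hre _ (h2.trans_le (min_le_left _ _))

theorem main : S_ROB → S_FLT → S_REG := by
  intro hR hF E _ _ D hT hfin hS hD x0 y0 a δ h ha hxa hli c e r hc hr hce
  obtain ⟨ρ, hρ, hne⟩ := R_near hS hD hR hF h ha hxa hli
  obtain ⟨h1, h2, h3, h4, h5, h6, h7⟩ := id h
  have hy0 : y0 ≠ 0 := by
    intro h8
    rw [h8, norm_zero] at h2
    exact zero_ne_one h2
  -- uniform version
  have hun : ∀ z z' e : E, ‖z‖ = 1 → ‖z'‖ = 1 → ‖z' - z‖ < ρ → R D z e → R D z' e := by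
    intro z z' e hz hz' hzz he
    obtain ⟨T, hT0⟩ := hT y0 z h2 hz
    have hz0 : z ≠ 0 := by
      intro h8
      rw [h8, norm_zero] at hz
      exact zero_ne_one hz
    have g1 : R D y0 (T.symm e) := by
      have g2 := R_map hS hD T.symm hz0 he
      rwa [← hT0, LinearIsometryEquiv.symm_apply_apply] at g2
    have g3 : ‖T.symm z' - y0‖ < ρ := by
      have g4 : T.symm z' - y0 = T.symm (z' - z) := by
        rw [map_sub, ← hT0, LinearIsometryEquiv.symm_apply_apply]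
      rw [g4, T.symm.norm_map]
      exact hzz
    have g5 := hne _ _ g3 g1
    have g6 : T.symm z' ≠ 0 := by
      intro h8
      have h9 := T.symm.norm_map z'
      rw [h8, norm_zero, hz'] at h9
      exact zero_ne_one h9
    have g7 := R_map hS hD T g6 g5
    rwa [LinearIsometryEquiv.apply_symm_apply, LinearIsometryEquiv.apply_symm_apply] at g7
  by_contra he0
  have hen : 0 < ‖e‖ := norm_pos_iff.2 he0
  have hcn : 0 < ‖c‖ := norm_pos_iff.2 hc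
  have hrk : 1 < Module.rank ℝ E := by
    refine Cardinal.one_lt_aleph0.trans_le (not_lt.1 fun h8 => hfin ?_)
    exact Module.rank_lt_aleph0_iff.1 h8
  have hcon := (isConnected_sphere hrk (0 : E) (zero_le_one (α := ℝ))).isPreconnected
  have hRc : R D (‖c‖⁻¹ • c) e := R_smul hS hD (inv_pos.2 hcn) hc ⟨r, hr, hce⟩
  have hun1 : ‖‖c‖⁻¹ • c‖ = 1 := by
    rw [norm_smul, norm_inv, norm_norm, inv_mul_cancel₀ hcn.ne']
  have hun2 : ‖‖e‖⁻¹ • e‖ = 1 := by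
    rw [norm_smul, norm_inv, norm_norm, inv_mul_cancel₀ hen.ne']
  have hnR : ¬ R D (‖e‖⁻¹ • e) e := by
    rintro ⟨s, hs, hse⟩
    have h8 := hse (‖e‖⁻¹ • e) (by rw [sub_self, norm_zero]; exact hs)
    rw [(Pool.Agent.Lead.BR.T.EQV.main E D hS hD).2 _ e (inv_pos.2 hen) he0, (hD e he0).2] at h8
    exact hen.ne' h8
  obtain ⟨w, hw, hwA, hwB⟩ := hcon (⋃ z ∈ {z : E | ‖z‖ = 1 ∧ R D z e}, ball z ρ)
    (⋃ z ∈ {z : E | ‖z‖ = 1 ∧ ¬ R D z e}, ball z ρ)
    (isOpen_biUnion fun _ _ => isOpen_ball) (isOpen_biUnion fun _ _ => isOpen_ball)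
    (by
      intro z hz
      rw [mem_sphere_zero_iff_norm] at hz
      by_cases h8 : R D z e
      · exact Or.inl (Set.mem_biUnion (show z ∈ {z : E | ‖z‖ = 1 ∧ R D z e} from ⟨hz, h8⟩)
          (mem_ball_self hρ))
      · exact Or.inr (Set.mem_biUnion (show z ∈ {z : E | ‖z‖ = 1 ∧ ¬ R D z e} from ⟨hz, h8⟩)
          (mem_ball_self hρ)))
    ⟨‖c‖⁻¹ • c, by rw [mem_sphere_zero_iff_norm]; exact hun1,
      Set.mem_biUnion (show ‖c‖⁻¹ • c ∈ {z : E | ‖z‖ = 1 ∧ R D z e} from ⟨hun1, hRc⟩)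
        (mem_ball_self hρ)⟩
    ⟨‖e‖⁻¹ • e, by rw [mem_sphere_zero_iff_norm]; exact hun2,
      Set.mem_biUnion (show ‖e‖⁻¹ • e ∈ {z : E | ‖z‖ = 1 ∧ ¬ R D z e} from ⟨hun2, hnR⟩)
        (mem_ball_self hρ)⟩
  rw [mem_sphere_zero_iff_norm] at hw
  obtain ⟨z1, ⟨hz1, hz1R⟩, hwz1⟩ := Set.mem_iUnion₂.1 hwA
  obtain ⟨z2, ⟨hz2, hz2R⟩, hwz2⟩ := Set.mem_iUnion₂.1 hwB
  rw [mem_ball, dist_eq_norm] at hwz1 hwz2
  have k1 : R D w e := hun z1 w e hz1 hw hwz1 hz1R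
  rw [norm_sub_rev] at hwz2
  exact hz2R (hun w z2 e hw hz2 hwz2 k1)

end Pool.Agent.H66.SO.T.REG

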