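import Pool.Agent.H66.SO.Stm
import Pool.Agent.Lead.BR.T.CONT

/-! # SO-ROB (helper91) -/

set_option autoImplicit false

namespace Pool.Agent.H66.SO.T.ROB

open Pool.Agent.Lead.BR (Tr Sm NF Bo Orth Pairs Hilb)

/-- a matrix near the identity is bounded from below -/
theorem near_one {n : ℕ} (A : Matrix (Fin n) (Fin n) ℝ)
    (h : ∀ i j, |A i j - (1 : Matrix (Fin n) (Fin n) ℝ) i j| ≤ 1 / (2 * ((n : ℝ) + 1)))
    (c : Fin n → ℝ) : ‖c‖ ≤ 2 * ‖A.mulVec c‖ := by
  have h1 : ‖c‖ ≤ ‖A.mulVec c‖ + ‖c‖ / 2 := by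
    refine (pi_norm_le_iff_of_nonneg (by positivity)).2 fun i => ?_
    have h2 : c i = A.mulVec c i - (A - 1).mulVec c i := by
      rw [Matrix.sub_mulVec, Matrix.one_mulVec, Pi.sub_apply]
      ring
    have h3 : |(A - 1).mulVec c i| ≤ ‖c‖ / 2 := by
      rw [Matrix.mulVec, dotProduct]
      calc |∑ j, (A - 1) i j * c j| ≤ ∑ j, |(A - 1) i j * c j| := Finset.abs_sum_le_sum_abs _ _
        _ ≤ ∑ _j : Fin n, 1 / (2 * ((n : ℝ) + 1)) * ‖c‖ := by
          refine Finset.sum_le_sum fun j _ => ?_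
          rw [abs_mul]
          refine mul_le_mul (h i j) ?_ (abs_nonneg _) (by positivity)
          have := norm_le_pi_norm c j
          rwa [Real.norm_eq_abs] at this
        _ = (n / ((n : ℝ) + 1)) * (‖c‖ / 2) := by
          rw [Finset.sum_const, Finset.card_univ, Fintype.card_fin, nsmul_eq_mul]
          field_simp
        _ ≤ 1 * (‖c‖ / 2) := by
          refine mul_le_mul_of_nonneg_right ?_ (by positivity)
          rw [div_le_one (by positivity)]
          linarith
        _ = ‖c‖ / 2 := one_mul _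
    have h4 : |A.mulVec c i| ≤ ‖A.mulVec c‖ := by
      have := norm_le_pi_norm (A.mulVec c) i
      rwa [Real.norm_eq_abs] at this
    rw [Real.norm_eq_abs, h2]
    exact (abs_sub _ _).trans (add_le_add h4 h3)
  linarith

theorem inj {n : ℕ} (A : Matrix (Fin n) (Fin n) ℝ)
    (h : ∀ i j, |A i j - (1 : Matrix (Fin n) (Fin n) ℝ) i j| ≤ 1 / (2 * ((n : ℝ) + 1))) :
    Function.Injective A.mulVecLin := by
  rw [injective_iff_map_eq_zero]
  intro c hc
  have h1 := near_one A h c
  have h2 : A.mulVec c = 0 := by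
    rw [← Matrix.mulVecLin_apply]
    exact hc
  rw [h2, norm_zero, mul_zero] at h1
  exact norm_le_zero_iff.1 h1

/-- dual vectors of independent functionals -/
theorem dual {E : Type} [NormedAddCommGroup E] [NormedSpace ℝ E] {n : ℕ} (f : Fin n → StrongDual ℝ E)
    (hf : LinearIndependent ℝ f) :
    ∃ e : Fin n → E, ∀ i j, f i (e j) = (1 : Matrix (Fin n) (Fin n) ℝ) i j := by
  classical
  let L : E →ₗ[ℝ] (Fin n → ℝ) := LinearMap.pi fun i => (f i : E →ₗ[ℝ] ℝ)
  have hL : LinearMap.range L = ⊤ := by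
    by_contra hne
    obtain ⟨φ, hφ, hle⟩ := Submodule.exists_le_ker_of_lt_top _ (lt_top_iff_ne_top.2 hne)
    apply hφ
    have h1 : ∑ i, φ (Pi.single i 1) • f i = 0 := by
      ext v
      have h2 : φ (L v) = 0 := hle ⟨v, rfl⟩
      have h3 : L v = ∑ i, f i v • Pi.single i (1 : ℝ) := by
        ext k
        rw [Finset.sum_apply]
        simp [L, Pi.single_apply]
      rw [h3, map_sum] at h2
      rw [ContinuousLinearMap.sum_apply, ContinuousLinearMap.zero_apply, ← h2]
      refine Finset.sum_congr rfl fun i _ => ?_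
      rw [map_smul, ContinuousLinearMap.smul_apply, smul_eq_mul, smul_eq_mul, mul_comm]
    have h4 := Fintype.linearIndependent_iff.1 hf _ h1
    refine LinearMap.pi_ext' fun i => LinearMap.ext_ring ?_
    simpa using h4 i
  have h5 : ∀ j, ∃ v, L v = fun i => (1 : Matrix (Fin n) (Fin n) ℝ) i j := fun j =>
    LinearMap.range_eq_top.1 hL _
  choose e he using h5
  exact ⟨e, fun i j => congrFun (he j) i⟩

theorem main : S_ROB := by
  intro E _ _ D hS hD n p x1 ε hε hp hli hx
  obtain ⟨e, he⟩ := dual _ hli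
  set η : ℝ := 1 / (2 * ((n : ℝ) + 1)) with hη
  have hη0 : 0 < η := by positivity
  set B : ℝ := 1 + ∑ j, ‖e j‖ with hB
  have hB1 : 1 ≤ B := by
    have : 0 ≤ ∑ j, ‖e j‖ := Finset.sum_nonneg fun j _ => norm_nonneg _
    linarith
  set κ : ℝ := ε / (4 * B) with hκ
  have hκ0 : 0 < κ := by positivity
  have h1 : ∀ i j, ∃ δ : ℝ, 0 < δ ∧ ∀ x' : E, ‖x' - p i‖ < δ → |D x' (e j) - D (p i) (e j)| < η :=
    fun i j => Pool.Agent.Lead.BR.T.CON.main E D hS hD (p i) (e j) (hp i) η hη0
  have h2 : ∀ i, ∃ δ : ℝ, 0 < δ ∧ ∀ x' : E, ‖x' - p i‖ < δ → |D x' x1 - D (p i) x1| < κ :=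
    fun i => Pool.Agent.Lead.BR.T.CON.main E D hS hD (p i) x1 (hp i) κ hκ0
  choose r hr0 hr using h1
  choose s hs0 hs using h2
  obtain ⟨ρ, hρ0, hρr, hρs⟩ : ∃ ρ : ℝ, 0 < ρ ∧ (∀ i j, ρ < r i j) ∧ ∀ i, ρ < s i := by
    have a1 : ∀ᶠ t : ℝ in nhdsWithin 0 (Set.Ioi 0), ∀ i j, t < r i j := by
      rw [Filter.eventually_all]
      intro i
      rw [Filter.eventually_all]
      intro j
      exact nhdsWithin_le_nhds (Iio_mem_nhds (hr0 i j))
    have a2 : ∀ᶠ t : ℝ in nhdsWithin 0 (Set.Ioi 0), ∀ i, t < s i := by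
      rw [Filter.eventually_all]
      intro i
      exact nhdsWithin_le_nhds (Iio_mem_nhds (hs0 i))
    have a3 : ∀ᶠ t : ℝ in nhdsWithin 0 (Set.Ioi 0), 0 < t := self_mem_nhdsWithin
    obtain ⟨t, ht1, ht2, ht3⟩ := (a1.and (a2.and a3)).exists
    exact ⟨t, ht3, ht1, ht2⟩
  refine ⟨ρ, hρ0, fun p' hp' => ?_⟩
  set A : Matrix (Fin n) (Fin n) ℝ := Matrix.of fun i j => D (p' i) (e j) with hA
  have hA1 : ∀ i j, |A i j - (1 : Matrix (Fin n) (Fin n) ℝ) i j| ≤ 1 / (2 * ((n : ℝ) + 1)) := by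
    intro i j
    rw [← he i j]
    exact (hr i j (p' i) ((hp' i).trans (hρr i j))).le
  have hA2 : ∀ i j, |A.transpose i j - (1 : Matrix (Fin n) (Fin n) ℝ) i j| ≤
      1 / (2 * ((n : ℝ) + 1)) := by
    intro i j
    have := hA1 j i
    rw [Matrix.transpose_apply]
    rwa [show (1 : Matrix (Fin n) (Fin n) ℝ) i j = (1 : Matrix (Fin n) (Fin n) ℝ) j i from by
      rw [← Matrix.transpose_apply (1 : Matrix (Fin n) (Fin n) ℝ), Matrix.transpose_one]]
  constructor
  · rw [Fintype.linearIndependent_iff]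
    intro a ha i
    have h3 : A.transpose.mulVec a = 0 := by
      ext j
      have h4 := congrArg (fun g : StrongDual ℝ E => g (e j)) ha
      simp only [ContinuousLinearMap.sum_apply, ContinuousLinearMap.smul_apply, smul_eq_mul,
        ContinuousLinearMap.zero_apply] at h4
      rw [Matrix.mulVec, dotProduct, Pi.zero_apply, ← h4]
      refine Finset.sum_congr rfl fun i _ => ?_
      rw [Matrix.transpose_apply, hA, Matrix.of_apply, mul_comm]
    have h5 := near_one _ hA2 a
    rw [h3, norm_zero, mul_zero] at h5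
    exact congrFun (norm_le_zero_iff.1 h5) i
  · have hsurj : Function.Surjective A.mulVecLin :=
      LinearMap.injective_iff_surjective.1 (inj A hA1)
    obtain ⟨c, hc⟩ := hsurj fun i => - D (p' i) x1
    have hc' : ∀ i, ∑ j, D (p' i) (e j) * c j = - D (p' i) x1 := by
      intro i
      have := congrFun hc i
      rw [Matrix.mulVecLin_apply, Matrix.mulVec, dotProduct] at this
      exact this
    have hcn : ‖c‖ ≤ 2 * κ := by
      have h3 := near_one A hA1 c
      rw [← Matrix.mulVecLin_apply, hc] at h3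
      refine h3.trans (mul_le_mul_of_nonneg_left ?_ (by norm_num))
      refine (pi_norm_le_iff_of_nonneg hκ0.le).2 fun i => ?_
      have h4 := hs i (p' i) ((hp' i).trans (hρs i))
      rw [hx i, sub_zero] at h4
      rw [norm_neg, Real.norm_eq_abs]
      exact h4.le
    refine ⟨x1 + ∑ j, c j • e j, ?_, fun i => ?_⟩
    · rw [add_sub_cancel_left]
      calc ‖∑ j, c j • e j‖ ≤ ∑ j, ‖c j • e j‖ := norm_sum_le _ _
        _ ≤ ∑ j, (2 * κ) * ‖e j‖ := by
          refine Finset.sum_le_sum fun j _ => ?_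
          rw [norm_smul]
          exact mul_le_mul_of_nonneg_right ((norm_le_pi_norm c j).trans hcn) (norm_nonneg _)
        _ = (2 * κ) * (B - 1) := by rw [← Finset.mul_sum, hB, add_sub_cancel_left]
        _ ≤ (2 * κ) * B := mul_le_mul_of_nonneg_left (by linarith) (by positivity)
        _ = ε / 2 := by rw [hκ]; field_simp; ring
        _ < ε := by linarith
    · rw [map_add, map_sum]
      have h3 : ∑ j, D (p' i) (c j • e j) = ∑ j, D (p' i) (e j) * c j := by
        refine Finset.sum_congr rfl fun j _ => ?_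
        rw [map_smul, smul_eq_mul, mul_comm]
      rw [h3, hc' i, add_neg_cancel]

end Pool.Agent.H66.SO.T.ROB
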