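import Pool.Agent.H66.SO.Stm

/-! Stub SPN of the project SO (helper26) -/

set_option autoImplicit false

namespace Pool.Agent.H66.SO.T.SPN

open TopologicalSpace Metric Filter Topology
open Pool.Agent.Lead.BR (Tr Sm NF Bo Orth Pairs Hilb)

theorem hom {E : Type} [NormedAddCommGroup E] [NormedSpace ℝ E] {D : E → StrongDual ℝ E}
    (hS : Sm E) (hD : NF D) {c : ℝ} {x : E} (hc : 0 < c) (hx : x ≠ 0) : D (c • x) = D x := by
  have hcx : c • x ≠ 0 := smul_ne_zero hc.ne' hx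
  refine hS (c • x) (D (c • x)) (D x) hcx (hD _ hcx).1 (hD x hx).1 (hD _ hcx).2 ?_
  rw [map_smul, (hD x hx).2, norm_smul, Real.norm_of_nonneg hc.le, smul_eq_mul]

theorem main : S_SPN := by
  intro E _ _ D hS hD x0 y0 δ hL p q x1 hp hq hx1 hpx hqx a b ha hb hab
  obtain ⟨hx0, hy0, h1, h2, hδ, hδ4, hsym⟩ := hL
  obtain ⟨z, hz⟩ : ∃ z : E, z = (a + b)⁻¹ • (a • p + b • q) := ⟨_, rfl⟩
  have hab0 : a + b ≠ 0 := hab.ne'
  have hzy : ‖z - y0‖ < δ := by
    have e : z - y0 = (a / (a + b)) • (p - y0) + (b / (a + b)) • (q - y0) := by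
      have e1 : y0 = (a / (a + b)) • y0 + (b / (a + b)) • y0 := by
        rw [← add_smul, ← add_div, div_self hab0, one_smul]
      conv_lhs => rw [hz, e1]
      rw [smul_add, smul_smul, smul_smul, smul_sub, smul_sub]
      rw [show (a + b)⁻¹ * a = a / (a + b) by rw [div_eq_inv_mul],
        show (a + b)⁻¹ * b = b / (a + b) by rw [div_eq_inv_mul]]
      abel
    have ha' : 0 ≤ a / (a + b) := div_nonneg ha hab.le
    have hb' : 0 ≤ b / (a + b) := div_nonneg hb hab.le
    have hs : a / (a + b) + b / (a + b) = 1 := by rw [← add_div, div_self hab0]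
    rw [e]
    have m : max ‖p - y0‖ ‖q - y0‖ < δ := max_lt hp hq
    calc ‖(a / (a + b)) • (p - y0) + (b / (a + b)) • (q - y0)‖
        ≤ ‖(a / (a + b)) • (p - y0)‖ + ‖(b / (a + b)) • (q - y0)‖ := norm_add_le _ _
      _ = a / (a + b) * ‖p - y0‖ + b / (a + b) * ‖q - y0‖ := by
          rw [norm_smul, norm_smul, Real.norm_of_nonneg ha', Real.norm_of_nonneg hb']
      _ ≤ a / (a + b) * max ‖p - y0‖ ‖q - y0‖ + b / (a + b) * max ‖p - y0‖ ‖q - y0‖ :=
          add_le_add (mul_le_mul_of_nonneg_left (le_max_left _ _) ha')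
            (mul_le_mul_of_nonneg_left (le_max_right _ _) hb')
      _ = max ‖p - y0‖ ‖q - y0‖ := by rw [← add_mul, hs, one_mul]
      _ < δ := m
  have hz0 : z ≠ 0 := by
    rintro h0
    rw [h0, zero_sub, norm_neg, hy0] at hzy
    linarith
  have hsm : a • p + b • q = (a + b) • z := by
    rw [hz, smul_smul, mul_inv_cancel₀ hab0, one_smul]
  have hDz : D (a • p + b • q) = D z := by rw [hsm, hom hS hD hab hz0]
  -- the key fact
  have key : ∀ x : E, ‖x - x0‖ < δ → D p x = 0 → D q x = 0 → D z x = 0 := by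
    intro x hx hpx hqx
    have k1 : D x p = 0 := (hsym x p hx hp).mpr hpx
    have k2 : D x q = 0 := (hsym x q hx hq).mpr hqx
    have k3 : D x z = 0 := by
      rw [hz, map_smul, map_add, map_smul, map_smul, k1, k2, smul_zero, smul_zero, add_zero,
        smul_zero]
    exact (hsym x z hx hzy).mp k3
  have hz1 : D z x1 = 0 := key x1 hx1 hpx hqx
  rw [hDz]
  refine ⟨hz1, ?_⟩
  have hker : ∀ v : E, D p v = 0 → D q v = 0 → D z v = 0 := by
    intro v hpv hqv
    obtain ⟨ε, hε, hεv⟩ : ∃ ε : ℝ, 0 < ε ∧ ‖x1 - x0‖ + ε * ‖v‖ < δ := by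
      refine ⟨(δ - ‖x1 - x0‖) / (2 * (‖v‖ + 1)), ?_, ?_⟩
      · have : 0 < δ - ‖x1 - x0‖ := by linarith
        positivity
      · have h3 : 0 < δ - ‖x1 - x0‖ := by linarith
        have h4 : (δ - ‖x1 - x0‖) / (2 * (‖v‖ + 1)) * ‖v‖ < δ - ‖x1 - x0‖ := by
          rw [div_mul_eq_mul_div, div_lt_iff₀ (by positivity)]
          have := norm_nonneg v
          nlinarith
        linarith
    have h5 := key (x1 + ε • v) ?_ (by rw [map_add, map_smul, hpx, hpv, smul_zero, add_zero])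
      (by rw [map_add, map_smul, hqx, hqv, smul_zero, add_zero])
    · rw [map_add, map_smul, hz1, zero_add, smul_eq_mul] at h5
      exact (mul_eq_zero.mp h5).resolve_left hε.ne'
    · calc ‖x1 + ε • v - x0‖ = ‖(x1 - x0) + ε • v‖ := by congr 1; abel
        _ ≤ ‖x1 - x0‖ + ‖ε • v‖ := norm_add_le _ _
        _ = ‖x1 - x0‖ + ε * ‖v‖ := by rw [norm_smul, Real.norm_of_nonneg hε.le]
        _ < δ := hεv
  have hmem := mem_span_of_iInf_ker_le_ker (ι := Fin 2)
    (L := ![(D p : E →ₗ[ℝ] ℝ), (D q : E →ₗ[ℝ] ℝ)]) (K := (D z : E →ₗ[ℝ] ℝ)) (by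
      intro v hv
      rw [Submodule.mem_iInf] at hv
      have v0 := hv 0
      have v1 := hv 1
      simp only [LinearMap.mem_ker] at v0 v1 ⊢
      exact hker v v0 v1)
  rw [Submodule.mem_span_range_iff_exists_fun] at hmem
  obtain ⟨c, hc⟩ := hmem
  refine ⟨c 0, c 1, ?_⟩
  ext v
  have := LinearMap.congr_fun hc v
  simp [Fin.sum_univ_two] at this
  simp [← this]

end Pool.Agent.H66.SO.T.SPN
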