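import Pool.Agent.H66.SO.Stm

/-!
# Project SO, stub SYT: the map `T` is symmetric
-/

set_option autoImplicit false

namespace Pool.Agent.H66.SO.T.SYT

open Pool.Agent.Lead.BR (Tr Sm NF Bo Orth Pairs Hilb)

theorem main : S_EQN → S_SYT := by
  intro hEQN E _ _ D hfin hSm hNF hNR y0 ρ μ T hy0 hρ hρ4 hcont hT u v
  by_contra hne
  have heq := hEQN E D hSm hNF y0 ρ μ T hy0 hρ hρ4 hcont hT
  -- a common zero of the two functionals
  let f1 : E →ₗ[ℝ] ℝ :=
    { toFun := fun w => T u w - T w u
      map_add' := fun a b => by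
        simp only [map_add, ContinuousLinearMap.add_apply]; ring
      map_smul' := fun c a => by
        simp only [map_smul, ContinuousLinearMap.smul_apply, smul_eq_mul, RingHom.id_apply]; ring }
  let f2 : E →ₗ[ℝ] ℝ :=
    { toFun := fun w => T v w - T w v
      map_add' := fun a b => by
        simp only [map_add, ContinuousLinearMap.add_apply]; ring
      map_smul' := fun c a => by
        simp only [map_smul, ContinuousLinearMap.smul_apply, smul_eq_mul, RingHom.id_apply]; ring }
  have hker : ¬ Function.Injective (f1.prod f2) := fun h =>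
    hfin (FiniteDimensional.of_injective (f1.prod f2) h)
  rw [← LinearMap.ker_eq_bot, Submodule.eq_bot_iff] at hker
  push Not at hker
  obtain ⟨w, hw, hw0⟩ := hker
  rw [LinearMap.mem_ker, LinearMap.prod_apply] at hw
  have h1 : T u w - T w u = 0 := congrArg Prod.fst hw
  have h2 : T v w - T w v = 0 := congrArg Prod.snd hw
  refine hw0 (hNR y0 w ρ ?_ hρ fun y hy => ?_)
  · intro h
    rw [h, norm_zero] at hy0
    norm_num at hy0
  have hyn : 0 < ‖y‖ := by
    have h3 := norm_sub_norm_le y0 y
    rw [norm_sub_rev, hy0] at h3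
    linarith
  obtain ⟨hμ, hTy⟩ := hT y hy
  have hy' : y ≠ 0 := norm_pos_iff.mp hyn
  have hTyy : 0 < T y y := by
    rw [← hTy, ContinuousLinearMap.smul_apply, (hNF y hy').2, smul_eq_mul]
    positivity
  have e1 := heq y u w hy
  have e2 := heq y v w hy
  have e3 := heq y u v hy
  rw [h1, mul_zero] at e1
  rw [h2, mul_zero] at e2
  have hdet : (T y v - T v y) * (T y u + T u y) - (T y u - T u y) * (T y v + T v y) ≠ 0 := by
    rw [← e3]
    exact mul_ne_zero (by positivity) (sub_ne_zero.mpr hne)
  have ha : T y w - T w y = 0 := by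
    have h4 : ((T y v - T v y) * (T y u + T u y) - (T y u - T u y) * (T y v + T v y)) *
        (T y w - T w y) = 0 := by
      linear_combination (-(T y v - T v y)) * e1 + (T y u - T u y) * e2
    exact (mul_eq_zero.mp h4).resolve_left hdet
  have hs : T y w + T w y = 0 := by
    have h4 : ((T y v - T v y) * (T y u + T u y) - (T y u - T u y) * (T y v + T v y)) *
        (T y w + T w y) = 0 := by
      linear_combination (-(T y v + T v y)) * e1 + (T y u + T u y) * e2
    exact (mul_eq_zero.mp h4).resolve_left hdet
  have hTw : T y w = 0 := by linarith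
  rw [← hTy, ContinuousLinearMap.smul_apply, smul_eq_mul] at hTw
  exact (mul_eq_zero.mp hTw).resolve_left hμ.ne'

end Pool.Agent.H66.SO.T.SYT
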