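import Pool.Agent.H66.SO.Stm
import Pool.Agent.Lead.BR.Near
import Pool.Agent.Lead.BR.T.CONT
import Pool.Agent.Lead.BR.T.ORT
import Pool.Agent.Lead.BR.T.EQV
import Pool.Agent.Lead.BR.T.MEA

/-! SO-TOPA: the slice version (helper72) -/

set_option autoImplicit false

namespace Pool.Agent.H66.SO.T.TOPA

open TopologicalSpace Metric Filter Topology
open Pool.Agent.Lead.BR (Tr Sm NF Bo Orth Pairs Hilb near_open S_CON S_EQV)

/-- from a slice to an open set of pairs -/
theorem loc (hCON : S_CON) (hEQV : S_EQV) (E : Type) [NormedAddCommGroup E] [NormedSpace ℝ E]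
    [CompleteSpace E] [SeparableSpace E] (D : E → StrongDual ℝ E) (hTr : Tr E) (hSm : Sm E)
    (hD : NF D) (x y0 : E) (r : ℝ) (hx : ‖x‖ = 1) (hy0 : ‖y0‖ = 1)
    (hr : 0 < r) (hsl : ∀ y : E, ‖y‖ = 1 → D x y = 0 → ‖y - y0‖ < r → D y x = 0) :
    ∃ r' : ℝ, 0 < r' ∧ ∀ x' y' : E, ‖x'‖ = 1 → ‖y'‖ = 1 → ‖x' - x‖ < r' → ‖y' - y0‖ < r' →
      D x' y' = 0 → D y' x' = 0 := by
  have hx0 : x ≠ 0 := by intro h; rw [h, norm_zero] at hx; exact zero_ne_one hx
  have hDxx : D x x = 1 := by rw [(hD x hx0).2, hx]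
  obtain ⟨t, ht, hopen⟩ := near_open hTr (fun _ : Unit => y0) x hx (κ := r / 8) (by positivity)
  refine ⟨min t (r / 8), lt_min ht (by positivity), ?_⟩
  intro x' y' hx' hy' hxx' hyy' hxy'
  have hx'0 : x' ≠ 0 := by intro h; rw [h, norm_zero] at hx'; exact zero_ne_one hx'
  have hy'0 : y' ≠ 0 := by intro h; rw [h, norm_zero] at hy'; exact zero_ne_one hy'
  have hxt : ‖x' - x‖ ≤ t := (hxx'.trans_le (min_le_left _ _)).le
  have hyr : ‖y' - y0‖ < r / 8 := hyy'.trans_le (min_le_right _ _)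
  -- it is enough to show that `D y' x'` is small
  by_contra hne
  have hM : 0 < |D y' x'| := abs_pos.2 hne
  set M : ℝ := |D y' x'| with hMdef
  -- continuity of `D` at `y'` for the vector `x'`
  obtain ⟨δ', hδ', hcont⟩ := hCON E D hSm hD y' x' hy'0 (M / 2) (by positivity)
  set ε : ℝ := min (min (1 / 4) (r / 16)) (min (δ' / 2) (M / 4)) with hε
  have hε0 : 0 < ε := lt_min (lt_min (by norm_num) (by positivity))
    (lt_min (by positivity) (by positivity))
  have hε1 : ε ≤ 1 / 4 := (min_le_left _ _).trans (min_le_left _ _)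
  have hε2 : ε ≤ r / 16 := (min_le_left _ _).trans (min_le_right _ _)
  have hε3 : ε ≤ δ' / 2 := (min_le_right _ _).trans (min_le_left _ _)
  have hε4 : ε ≤ M / 4 := (min_le_right _ _).trans (min_le_right _ _)
  obtain ⟨δ, hδ, hδ1⟩ := hCON E D hSm hD x' y' hx'0 ε hε0
  obtain ⟨T, hT1, hT2⟩ := hopen x' hx' hxt (min ε (δ / 2)) (lt_min hε0 (by positivity))
  have hT1' : ‖T x - x'‖ ≤ ε := hT1.trans (min_le_left _ _)
  have hT1'' : ‖T x - x'‖ < δ := by
    have := hT1.trans (min_le_right _ _)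
    linarith
  have hT2' : ‖T y0 - y0‖ ≤ r / 8 := hT2 ()
  set u : E := T.symm y' with hu
  have hTu : T u = y' := T.apply_symm_apply y'
  have hun : ‖u‖ = 1 := by rw [hu, T.symm.norm_map, hy']
  obtain ⟨s, hs⟩ : ∃ s : ℝ, s = D x u := ⟨_, rfl⟩
  have hs1 : |s| < ε := by
    have h1 := hδ1 (T x) hT1''
    rw [hxy', sub_zero, ← hTu, (hEQV E D hSm hD).1 T x u hx0, ← hs] at h1
    exact h1
  set w : E := u - s • x with hw
  have hDw : D x w = 0 := by
    rw [hw, map_sub, map_smul, hDxx, ← hs, smul_eq_mul, mul_one, sub_self]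
  have hwu : ‖w - u‖ ≤ |s| := by
    have : w - u = -(s • x) := by rw [hw]; abel
    rw [this, norm_neg, norm_smul, hx, mul_one, Real.norm_eq_abs]
  have hwn : |‖w‖ - 1| ≤ |s| := by
    rw [← hun]
    exact (abs_norm_sub_norm_le w u).trans hwu
  have hw1 : 1 / 2 < ‖w‖ := by
    have := (abs_le.1 hwn).1
    linarith
  have hwne : w ≠ 0 := by
    intro h
    rw [h, norm_zero] at hw1
    norm_num at hw1
  have hw0 : ‖w‖ ≠ 0 := by linarith
  set y : E := ‖w‖⁻¹ • w with hy
  have hyn : ‖y‖ = 1 := by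
    rw [hy, norm_smul, norm_inv, norm_norm, inv_mul_cancel₀ hw0]
  have hDy : D x y = 0 := by rw [hy, map_smul, hDw, smul_zero]
  have hyw : ‖y - w‖ ≤ |s| := by
    have h1 : y - w = (1 - ‖w‖) • y := by
      rw [sub_smul, one_smul]
      congr 1
      rw [hy, smul_smul, mul_inv_cancel₀ hw0, one_smul]
    rw [h1, norm_smul, hyn, mul_one, Real.norm_eq_abs, abs_sub_comm]
    exact hwn
  have hyu : ‖y - u‖ ≤ 2 * |s| := by
    have : y - u = (y - w) + (w - u) := by abel
    rw [this]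
    exact (norm_add_le _ _).trans (by linarith)
  have huy0 : ‖u - y0‖ < r / 4 := by
    have h1 : ‖u - y0‖ = ‖y' - T y0‖ := by rw [← T.norm_map, map_sub, hTu]
    rw [h1]
    have h2 : y' - T y0 = (y' - y0) - (T y0 - y0) := by abel
    rw [h2]
    exact (norm_sub_le _ _).trans_lt (by linarith)
  have hyy0 : ‖y - y0‖ < r := by
    have : y - y0 = (y - u) + (u - y0) := by abel
    rw [this]
    exact (norm_add_le _ _).trans_lt (by linarith)
  have hyx : D y x = 0 := hsl y hyn hDy hyy0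
  have hwx : D w x = 0 := by
    have h1 := (hEQV E D hSm hD).2 ‖w‖⁻¹ w (inv_pos.2 (norm_pos_iff.2 hwne)) hwne
    have h2 : D y x = 0 := hyx
    have h3 : D y = D w := h1
    rw [← h3]
    exact h2
  have hTwx : D (T w) (T x) = 0 := by
    have h1 := (hEQV E D hSm hD).1 T w x hwne
    rw [h1]
    exact hwx
  have hTw0 : T w ≠ 0 := by
    intro h
    have := T.norm_map w
    rw [h, norm_zero] at this
    exact hw0 this.symm
  -- `T w` is near `y'`
  have hTw : ‖T w - y'‖ < δ' := by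
    have h1 : T w - y' = T (w - u) := by
      have h2 : T (w - u) = T w - T u := map_sub T w u
      rw [h2, hTu]
    rw [h1, T.norm_map]
    have : |s| < δ' := by linarith
    exact hwu.trans_lt this
  have h1 := hcont (T w) hTw
  have h2 : |D (T w) x'| ≤ ε := by
    have h3 : D (T w) x' = D (T w) (x' - T x) := by
      have h4 : D (T w) (x' - T x) = D (T w) x' - D (T w) (T x) := (D (T w)).map_sub x' (T x)
      rw [h4, hTwx, sub_zero]
    rw [h3, ← Real.norm_eq_abs]
    have h4 := (D (T w)).le_opNorm (x' - T x)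
    have h5 := (hD (T w) hTw0).1
    have h6 : ‖x' - T x‖ ≤ ε := by rw [norm_sub_rev]; exact hT1'
    calc ‖D (T w) (x' - T x)‖ ≤ ‖D (T w)‖ * ‖x' - T x‖ := h4
      _ ≤ 1 * ε := mul_le_mul h5 h6 (norm_nonneg _) zero_le_one
      _ = ε := one_mul ε
  have h3 : M ≤ |D (T w) x'| + |D (T w) x' - D y' x'| := by
    have h4 := abs_sub (D (T w) x') (D (T w) x' - D y' x')
    have h5 : D (T w) x' - (D (T w) x' - D y' x') = D y' x' := by ring
    rw [h5] at h4
    exact h4
  linarith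

theorem main : S_TOPA := by
  intro E _ _ _ _ D hTr hSm hD x hx hnm
  have hORT := Pool.Agent.Lead.BR.T.ORT.main E D hSm hD
  have hCON := Pool.Agent.Lead.BR.T.CON.main
  have hEQV := Pool.Agent.Lead.BR.T.EQV.main
  have hx0 : x ≠ 0 := by intro h; rw [h, norm_zero] at hx; exact zero_ne_one hx
  have hc : IsClosed {y : Orth x | Bo (y : E) x} := by
    have h1 : {y : Orth x | Bo (y : E) x} =
        ⋂ t : ℝ, {y : Orth x | ‖(y : E)‖ ≤ ‖(y : E) + t • x‖} := by
      ext y; simp [Bo]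
    rw [h1]
    refine isClosed_iInter fun t => isClosed_le continuous_subtype_val.norm ?_
    exact (continuous_subtype_val.add continuous_const).norm
  obtain ⟨y0, hy0⟩ := Pool.Agent.Lead.BR.T.MEA.int_nonempty hc hnm
  rw [mem_interior_iff_mem_nhds, Metric.mem_nhds_iff] at hy0
  obtain ⟨r, hr, hr'⟩ := hy0
  have hy01 : ‖(y0 : E)‖ = 1 := y0.2.1
  have hsl : ∀ y : E, ‖y‖ = 1 → D x y = 0 → ‖y - y0‖ < r → D y x = 0 := by
    intro y hy hxy hyr
    have hyO : y ∈ Orth x := ⟨hy, (hORT x y hx0).2 hxy⟩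
    have h1 : (⟨y, hyO⟩ : Orth x) ∈ ball y0 r := by
      rw [mem_ball, Subtype.dist_eq, dist_eq_norm]
      exact hyr
    have h2 : Bo y x := hr' h1
    have hy0' : y ≠ 0 := by intro h; rw [h, norm_zero] at hy; exact zero_ne_one hy
    exact (hORT y x hy0').1 h2
  obtain ⟨r', hr'0, hloc⟩ := loc hCON hEQV E D hTr hSm hD x y0 r hx hy01 hr hsl
  exact ⟨x, y0, r', hx, hy01, (hORT x y0 hx0).1 y0.2.2, hr'0, hloc⟩

end Pool.Agent.H66.SO.T.TOPA
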