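import Pool.Agent.H66.SO.Stm
import Pool.Agent.Lead.BR.T.ORT
import Pool.Agent.Lead.BR.T.MEA

/-! # SO-TOPB (helper71) -/

set_option autoImplicit false

namespace Pool.Agent.H66.SO.T.TOPB

open TopologicalSpace Metric Filter Topology
open Pool.Agent.Lead.BR (Tr Sm NF Bo Orth Pairs Hilb)

theorem main : S_TOPB := by
  intro E _ _ D hS hD h
  have hc : IsClosed {q : Pairs E | Bo q.1.2 q.1.1} := by
    have : {q : Pairs E | Bo q.1.2 q.1.1} =
        ⋂ t : ℝ, {q : Pairs E | ‖q.1.2‖ ≤ ‖q.1.2 + t • q.1.1‖} := by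
      ext y; simp [Bo]
    rw [this]
    refine isClosed_iInter fun t => isClosed_le ?_ ?_
    · exact (continuous_snd.comp continuous_subtype_val).norm
    · exact ((continuous_snd.comp continuous_subtype_val).add
        ((continuous_fst.comp continuous_subtype_val).const_smul t)).norm
  obtain ⟨p0, hp0⟩ := Pool.Agent.Lead.BR.T.MEA.int_nonempty hc h
  rw [mem_interior_iff_mem_nhds, Metric.mem_nhds_iff] at hp0
  obtain ⟨r, hr, hr'⟩ := hp0
  have hne : ∀ z : E, ‖z‖ = 1 → z ≠ 0 := by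
    intro z hz h
    rw [h, norm_zero] at hz
    exact zero_ne_one hz
  have hORT := Pool.Agent.Lead.BR.T.ORT.main E D hS hD
  refine ⟨p0.1.1, p0.1.2, r, p0.2.1, p0.2.2.1, ?_, hr, ?_⟩
  · exact (hORT _ _ (hne _ p0.2.1)).1 p0.2.2.2
  · intro x y hx hy hxr hyr hxy
    have hp : ((x, y) : E × E) ∈ Pairs E := ⟨hx, hy, (hORT x y (hne x hx)).2 hxy⟩
    have : (⟨(x, y), hp⟩ : Pairs E) ∈ ball p0 r := by
      rw [mem_ball, Subtype.dist_eq, Prod.dist_eq, dist_eq_norm, dist_eq_norm]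
      exact max_lt hxr hyr
    have h2 : Bo y x := hr' this
    exact (hORT y x (hne y hy)).1 h2

end Pool.Agent.H66.SO.T.TOPB
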