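import Pool.Agent.H66.SO.Stm2
import Pool.Agent.Lead.BR.Near
import Pool.Agent.Lead.BR.T.CONT
import Pool.Agent.Lead.BR.T.ORT
import Pool.Agent.Lead.BR.T.EQV
import Pool.Agent.Lead.BR.T.MEA

/-! SO-TOPC: orthogonal decompositions, from a slice to an open set of pairs (helper67) -/

set_option autoImplicit false

namespace Pool.Agent.H66.SO.T.TOPC

open TopologicalSpace Metric Filter Topology
open Pool.Agent.Lead.BR (Tr Sm NF Bo Orth Pairs Hilb near_open S_CON S_EQV S_ORT)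

section
variable {E : Type} [NormedAddCommGroup E] [NormedSpace ℝ E] {D : E → StrongDual ℝ E}

theorem ne0 {y : E} (hy : ‖y‖ = 1) : y ≠ 0 := by
  intro h; rw [h, norm_zero] at hy; exact zero_ne_one hy

/-- the decomposition in terms of the norming functional -/
theorem dec_iff (hORT : S_ORT) (hSm : Sm E) (hD : NF D) (x y : E) (hy : ‖y‖ = 1) :
    Dec x y ↔ Bo (x - D y x • y) y := by
  have hy0 := ne0 hy
  have hDy : D y y = 1 := by rw [(hD y hy0).2, hy]
  constructor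
  · rintro ⟨t, h1, h2⟩
    have h3 := (hORT E D hSm hD y (x - t • y) hy0).1 h1
    rw [map_sub, map_smul, hDy, smul_eq_mul, mul_one, sub_eq_zero] at h3
    rw [h3]; exact h2
  · intro h
    exact ⟨D y x, (hORT E D hSm hD y _ hy0).2
      (by rw [map_sub, map_smul, hDy, smul_eq_mul, mul_one, sub_self]), h⟩

theorem cont (hCON : S_CON) (hSm : Sm E) (hD : NF D) (x : E) :
    Continuous (fun y : sphere (0 : E) 1 => D (y : E) x) := by
  rw [Metric.continuous_iff]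
  intro y ε hε
  obtain ⟨δ, hδ, h⟩ := hCON E D hSm hD y x (ne0 (mem_sphere_zero_iff_norm.1 y.2)) ε hε
  refine ⟨δ, hδ, fun y' hy' => ?_⟩
  rw [Real.dist_eq]
  exact h y' (by rwa [Subtype.dist_eq, dist_eq_norm] at hy')

theorem closed (hORT : S_ORT) (hCON : S_CON) (hSm : Sm E) (hD : NF D) (x : E) :
    IsClosed {y : sphere (0 : E) 1 | Dec x (y : E)} := by
  have h1 : {y : sphere (0 : E) 1 | Dec x (y : E)} =
      ⋂ t : ℝ, {y : sphere (0 : E) 1 | ‖x - D (y : E) x • (y : E)‖ ≤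
        ‖x - D (y : E) x • (y : E) + t • (y : E)‖} := by
    ext y
    simp only [Set.mem_setOf_eq, Set.mem_iInter]
    rw [dec_iff hORT hSm hD x y (mem_sphere_zero_iff_norm.1 y.2)]
    rfl
  rw [h1]
  have hc := cont hCON hSm hD x
  have h2 : Continuous fun y : sphere (0 : E) 1 => x - D (y : E) x • (y : E) :=
    continuous_const.sub (hc.smul continuous_subtype_val)
  exact isClosed_iInter fun t => isClosed_le h2.norm
    (h2.add (continuous_subtype_val.const_smul t)).norm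

/-- a unit vector off the line of `x` near a given one -/
theorem off_line (hfin : ¬ FiniteDimensional ℝ E) (x y0 : E) (hy0 : ‖y0‖ = 1) (r : ℝ) (hr : 0 < r) :
    ∃ y1 : E, ‖y1‖ = 1 ∧ ‖y1 - y0‖ < r ∧ y1 ∉ Submodule.span ℝ {x} := by
  by_contra hcon
  push Not at hcon
  have hy0' := ne0 hy0
  have hcont : ContinuousAt (fun y : E => ‖y‖⁻¹ • y) y0 :=
    (continuousAt_id.norm.inv₀ (norm_ne_zero_iff.2 hy0')).smul continuousAt_id
  have e0 : ‖y0‖⁻¹ • y0 = y0 := by rw [hy0, inv_one, one_smul]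
  have h1 : ∀ᶠ y in 𝓝 y0, ‖y‖⁻¹ • y ∈ ball y0 r := by
    refine hcont.eventually_mem ?_
    rw [e0]
    exact ball_mem_nhds y0 hr
  have h2 : ∀ᶠ y in 𝓝 y0, y ≠ 0 := isOpen_ne.mem_nhds hy0'
  have h3 : ∀ᶠ y in 𝓝 y0, y ∈ (Submodule.span ℝ {x} : Submodule ℝ E) := by
    filter_upwards [h1, h2] with y hy hy'
    have h4 := hcon (‖y‖⁻¹ • y) (by
      rw [norm_smul, norm_inv, norm_norm, inv_mul_cancel₀ (norm_ne_zero_iff.2 hy')])
      (by rwa [mem_ball, dist_eq_norm] at hy)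
    have h5 := (Submodule.span ℝ {x}).smul_mem ‖y‖ h4
    rwa [smul_smul, mul_inv_cancel₀ (norm_ne_zero_iff.2 hy'), one_smul] at h5
  have h4 : (interior ((Submodule.span ℝ {x} : Submodule ℝ E) : Set E)).Nonempty :=
    ⟨y0, mem_interior_iff_mem_nhds.2 h3⟩
  have h5 := Submodule.eq_top_of_nonempty_interior' _ h4
  apply hfin
  have h6 : FiniteDimensional ℝ (Submodule.span ℝ {x}) := inferInstance
  rw [h5] at h6
  exact (Submodule.topEquiv (R := ℝ) (M := E)).finiteDimensional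

theorem unit_near {x x' : E} (hx : ‖x‖ = 1) {η : ℝ} (h : ‖x' - x‖ ≤ η) (hx' : x' ≠ 0) :
    ‖‖x'‖⁻¹ • x' - x‖ ≤ 2 * η := by
  have h1 : ‖‖x'‖⁻¹ • x' - x'‖ ≤ η := by
    have e : ‖x'‖⁻¹ • x' - x' = (1 - ‖x'‖) • (‖x'‖⁻¹ • x') := by
      rw [sub_smul, one_smul, smul_smul ‖x'‖, mul_inv_cancel₀ (norm_ne_zero_iff.2 hx'), one_smul]
    rw [e, norm_smul, norm_smul, norm_inv, norm_norm, inv_mul_cancel₀ (norm_ne_zero_iff.2 hx'),
      mul_one, Real.norm_eq_abs, ← hx]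
    exact (abs_norm_sub_norm_le x x').trans (by rwa [norm_sub_rev])
  have e2 : ‖x'‖⁻¹ • x' - x = (‖x'‖⁻¹ • x' - x') + (x' - x) := by abel
  rw [e2]
  exact (norm_add_le _ _).trans (by linarith)

end

theorem main : S_TOPC := by
  intro E _ _ _ _ D hTr hfin hSm hD x hx hnm
  have hORT := Pool.Agent.Lead.BR.T.ORT.main
  have hCON := Pool.Agent.Lead.BR.T.CON.main
  have hEQV := Pool.Agent.Lead.BR.T.EQV.main
  have hx0 := ne0 hx
  obtain ⟨y0, hy0⟩ := Pool.Agent.Lead.BR.T.MEA.int_nonempty (closed hORT hCON hSm hD x) hnm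
  rw [mem_interior_iff_mem_nhds, Metric.mem_nhds_iff] at hy0
  obtain ⟨r, hr, hr'⟩ := hy0
  obtain ⟨y1, hy1, hy1r, hy1s⟩ := off_line hfin x (y0 : E) (mem_sphere_zero_iff_norm.1 y0.2) r hr
  have hy10 := ne0 hy1
  -- all unit vectors near `y1`
  obtain ⟨κ, hκ, hκr⟩ : ∃ κ : ℝ, 0 < κ ∧ 2 * κ + ‖y1 - y0‖ ≤ r :=
    ⟨(r - ‖y1 - y0‖) / 2, by linarith, by linarith⟩
  have hsl : ∀ y : E, ‖y‖ = 1 → ‖y - y1‖ < 2 * κ → Bo (x - D y x • y) y := by
    intro y hy hyr
    have h1 : (⟨y, mem_sphere_zero_iff_norm.2 hy⟩ : sphere (0 : E) 1) ∈ ball y0 r := by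
      rw [mem_ball, Subtype.dist_eq, dist_eq_norm]
      have e : y - (y0 : E) = (y - y1) + (y1 - y0) := by abel
      change ‖y - (y0 : E)‖ < r
      rw [e]
      exact (norm_add_le _ _).trans_lt (by linarith)
    exact (dec_iff hORT hSm hD x y hy).1 (hr' h1)
  obtain ⟨t, ht, hopen⟩ := near_open hTr (fun _ : Unit => y1) x hx hκ
  -- all unit `x'` near `x`, all unit `y` near `y1`
  have hall : ∀ x' y : E, ‖x'‖ = 1 → ‖y‖ = 1 → ‖x' - x‖ ≤ t → ‖y - y1‖ < κ →
      Bo (x' - D y x' • y) y := by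
    intro x' y hx' hy hxx hyy
    have hyne := ne0 hy
    -- isometries with `T x → x'`
    have hT : ∀ n : ℕ, ∃ T : E ≃ₗᵢ[ℝ] E, ‖T x - x'‖ ≤ 1 / ((n : ℝ) + 1) ∧ ‖T y1 - y1‖ ≤ κ := by
      intro n
      obtain ⟨T, h1, h2⟩ := hopen x' hx' hxx (1 / ((n : ℝ) + 1)) (by positivity)
      exact ⟨T, h1, h2 ()⟩
    choose T hT1 hT2 using hT
    have hlim : Tendsto (fun n => T n x) atTop (𝓝 x') := by
      rw [tendsto_iff_norm_sub_tendsto_zero]
      exact squeeze_zero (fun n => norm_nonneg _) hT1 tendsto_one_div_add_atTop_nhds_zero_nat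
    have hB : ∀ n, Bo (T n x - D y (T n x) • y) y := by
      intro n
      have hu : ‖(T n).symm y‖ = 1 := by rw [(T n).symm.norm_map, hy]
      have hur : ‖(T n).symm y - y1‖ < 2 * κ := by
        have h1 : ‖(T n).symm y - y1‖ = ‖y - T n y1‖ := by
          rw [← (T n).norm_map, map_sub, (T n).apply_symm_apply]
        rw [h1]
        have h2 : y - T n y1 = (y - y1) - (T n y1 - y1) := by abel
        rw [h2]
        exact (norm_sub_le _ _).trans_lt (by linarith [hT2 n])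
      have h3 := hsl _ hu hur
      have h4 : D ((T n).symm y) x = D y (T n x) := by
        have := (hEQV E D hSm hD).1 (T n) ((T n).symm y) x (ne0 hu)
        rw [(T n).apply_symm_apply] at this
        exact this.symm
      rw [h4] at h3
      intro s
      have h5 := h3 s
      rw [← (T n).norm_map, ← (T n).norm_map (x - D y (T n x) • (T n).symm y + s • (T n).symm y)] at h5
      rw [map_add, map_sub, (T n).map_smul, (T n).map_smul, (T n).apply_symm_apply] at h5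
      exact h5
    intro s
    have hl1 : Tendsto (fun n => T n x - D y (T n x) • y) atTop (𝓝 (x' - D y x' • y)) :=
      hlim.sub ((((D y).continuous.tendsto x').comp hlim).smul_const y)
    exact le_of_tendsto_of_tendsto' hl1.norm (hl1.add_const (s • y)).norm (fun n => hB n s)
  -- the local symmetry
  obtain ⟨s, hs⟩ : ∃ s : ℝ, s = D y1 x := ⟨_, rfl⟩
  obtain ⟨z1, hz1⟩ : ∃ z1 : E, z1 = x - s • y1 := ⟨_, rfl⟩
  have hDy1 : D y1 y1 = 1 := by rw [(hD y1 hy10).2, hy1]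
  have hz10 : z1 ≠ 0 := by
    intro h
    apply hy1s
    have hxs : x = s • y1 := by
      rw [hz1, sub_eq_zero] at h
      exact h
    have hs0 : s ≠ 0 := by
      intro h0
      rw [h0, zero_smul] at hxs
      exact hx0 hxs
    rw [Submodule.mem_span_singleton]
    exact ⟨s⁻¹, by rw [hxs, smul_smul, inv_mul_cancel₀ hs0, one_smul]⟩
  have hDz : D y1 z1 = 0 := by
    rw [hz1, map_sub, map_smul, hDy1, ← hs, smul_eq_mul, mul_one, sub_self]
  have hn1 : 0 < ‖z1‖ := norm_pos_iff.2 hz10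
  obtain ⟨ρ, hρ, hρκ, hρt, hρ1⟩ : ∃ ρ : ℝ, 0 < ρ ∧ ρ ≤ κ ∧ 2 * ((‖z1‖ + |s|) * ρ) ≤ t ∧
      (‖z1‖ + |s|) * ρ ≤ 1 / 2 := by
    have hc : 0 < ‖z1‖ + |s| := by positivity
    refine ⟨min κ (min (t / 2 / (‖z1‖ + |s|)) (1 / 2 / (‖z1‖ + |s|))), ?_, min_le_left _ _, ?_, ?_⟩
    · refine lt_min hκ (lt_min (by positivity) (by positivity))
    · have h1 : min κ (min (t / 2 / (‖z1‖ + |s|)) (1 / 2 / (‖z1‖ + |s|))) ≤ t / 2 / (‖z1‖ + |s|) :=
        (min_le_right _ _).trans (min_le_left _ _)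
      rw [le_div_iff₀ hc] at h1
      linarith
    · have h1 : min κ (min (t / 2 / (‖z1‖ + |s|)) (1 / 2 / (‖z1‖ + |s|))) ≤ 1 / 2 / (‖z1‖ + |s|) :=
        (min_le_right _ _).trans (min_le_right _ _)
      rw [le_div_iff₀ hc] at h1
      linarith
  refine ⟨y1, ‖z1‖⁻¹ • z1, ρ, hy1, ?_, ?_, hρ, ?_⟩
  · rw [norm_smul, norm_inv, norm_norm, inv_mul_cancel₀ hn1.ne']
  · rw [map_smul, hDz, smul_zero]
  · intro a b ha hb har hbr hab
    have ha0 := ne0 ha
    have hb0 := ne0 hb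
    have hDaa : D a a = 1 := by rw [(hD a ha0).2, ha]
    obtain ⟨z, hz⟩ : ∃ z : E, z = ‖z1‖ • b := ⟨_, rfl⟩
    have hz0 : z ≠ 0 := by rw [hz]; exact smul_ne_zero hn1.ne' hb0
    have hzz1 : ‖z - z1‖ ≤ ‖z1‖ * ρ := by
      have e : z - z1 = ‖z1‖ • (b - ‖z1‖⁻¹ • z1) := by
        rw [smul_sub, smul_smul, mul_inv_cancel₀ hn1.ne', one_smul, hz]
      rw [e, norm_smul, norm_norm]
      exact mul_le_mul_of_nonneg_left hbr.le (norm_nonneg _)
    obtain ⟨x', hx'⟩ : ∃ x' : E, x' = z + s • a := ⟨_, rfl⟩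
    have hxx' : ‖x' - x‖ ≤ (‖z1‖ + |s|) * ρ := by
      have e : x' - x = (z - z1) + s • (a - y1) := by
        rw [hx', hz1, smul_sub]; abel
      rw [e]
      refine (norm_add_le _ _).trans ?_
      rw [norm_smul, Real.norm_eq_abs, add_mul]
      exact add_le_add hzz1 (mul_le_mul_of_nonneg_left har.le (abs_nonneg _))
    have hx'0 : x' ≠ 0 := by
      intro h
      rw [h, zero_sub, norm_neg, hx] at hxx'
      linarith
    have hn' : 0 < ‖x'‖ := norm_pos_iff.2 hx'0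
    have hDaz : D a z = 0 := by rw [hz, map_smul, hab, smul_zero]
    have h1 := hall (‖x'‖⁻¹ • x') a (by rw [norm_smul, norm_inv, norm_norm, inv_mul_cancel₀ hn'.ne'])
      ha ((unit_near hx hxx' hx'0).trans hρt) (har.trans_le hρκ)
    have e1 : ‖x'‖⁻¹ • x' - D a (‖x'‖⁻¹ • x') • a = ‖x'‖⁻¹ • z := by
      have e0 : D a x' = s := by
        rw [hx', map_add, map_smul, hDaz, hDaa, smul_eq_mul, zero_add, mul_one]
      have e3 : x' - s • a = z := by rw [hx', add_sub_cancel_right]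
      rw [map_smul, e0, smul_eq_mul, mul_smul, ← smul_sub, e3]
    rw [e1] at h1
    have h2 : D (‖x'‖⁻¹ • z) a = 0 :=
      (hORT E D hSm hD _ a (smul_ne_zero (inv_ne_zero hn'.ne') hz0)).1 h1
    rw [(hEQV E D hSm hD).2 ‖x'‖⁻¹ z (inv_pos.2 hn') hz0, hz,
      (hEQV E D hSm hD).2 ‖z1‖ b hn1 hb0] at h2
    exact h2

end Pool.Agent.H66.SO.T.TOPC
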