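import Pool.Agent.H66.SO.Stm

/-! Stub TRI of the project SO (helper26) -/

set_option autoImplicit false

namespace Pool.Agent.H66.SO.T.TRI

open TopologicalSpace Metric Filter Topology
open Pool.Agent.Lead.BR (Tr Sm NF Bo Orth Pairs Hilb)

theorem main : S_FLC → S_FLT → S_TRI := by
  intro hFLC hFLT E _ _ D hTr hinf hS hD x0 y0 δ hL
  obtain ⟨hx0, hy0, h1, h2, hδ, hδ4, hsym⟩ := hL
  have hy00 : y0 ≠ 0 := fun h => by rw [h, norm_zero] at hy0; exact zero_ne_one hy0
  have hDy0 : D y0 ≠ 0 := fun h => by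
    have := (hD y0 hy00).2
    rw [h, hy0] at this
    simp at this
  -- the contradiction if two functionals are enough
  have key : ∀ f2 : StrongDual ℝ E,
      (∀ b : E, ‖b - y0‖ < δ → D x0 b = 0 → D b ∈ Submodule.span ℝ {D y0, f2}) → False := by
    intro f2 hf
    refine hFLC E hTr hinf 3 ![D x0, D y0, f2] y0 δ hy0 hδ ?_
    intro w hw hfw
    have w0 : D x0 w = 0 := hfw 0
    have w1 : D y0 w = 0 := hfw 1
    have w2 : f2 w = 0 := hfw 2
    have hn : ‖y0 + w - y0‖ < δ := by rw [add_sub_cancel_left]; exact hw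
    have hyw : y0 + w ≠ 0 := by
      intro h0
      rw [h0, zero_sub, norm_neg, hy0] at hn
      linarith
    have hm := hf (y0 + w) hn (by rw [map_add, h1, w0, add_zero])
    rw [Submodule.mem_span_pair] at hm
    obtain ⟨s, t, hst⟩ := hm
    have h3 : D (y0 + w) w = 0 := by
      rw [← hst]
      simp [w1, w2]
    rw [(hFLT E D hS hD y0 w hy00 hyw w1 h3).1, hy0]
  by_contra hcon
  push Not at hcon
  by_cases hA : ∃ a : E, ‖a - y0‖ < δ ∧ D x0 a = 0 ∧ D a ∉ Submodule.span ℝ {D y0}
  · obtain ⟨a, ha1, ha2, ha3⟩ := hA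
    apply key (D a)
    intro b hb1 hb2
    by_contra hb3
    apply hcon a b ha1 hb1 ha2 hb2
    rw [Fintype.linearIndependent_iff]
    intro g hg
    rw [Fin.sum_univ_three] at hg
    simp only [Matrix.cons_val_zero, Matrix.cons_val_one, Matrix.cons_val] at hg
    have g2 : g 2 = 0 := by
      by_contra hne
      apply hb3
      rw [Submodule.mem_span_pair]
      refine ⟨-(g 2)⁻¹ * g 0, -(g 2)⁻¹ * g 1, ?_⟩
      have : g 2 • D b = -(g 0 • D y0 + g 1 • D a) := by
        rw [eq_neg_iff_add_eq_zero, add_comm]; exact hg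
      have h4 : D b = (g 2)⁻¹ • (g 2 • D b) := by rw [smul_smul, inv_mul_cancel₀ hne, one_smul]
      rw [h4, this]
      module
    rw [g2, zero_smul, add_zero] at hg
    have g1 : g 1 = 0 := by
      by_contra hne
      apply ha3
      rw [Submodule.mem_span_singleton]
      refine ⟨-(g 1)⁻¹ * g 0, ?_⟩
      have : g 1 • D a = -(g 0 • D y0) := by
        rw [eq_neg_iff_add_eq_zero, add_comm]; exact hg
      have h4 : D a = (g 1)⁻¹ • (g 1 • D a) := by rw [smul_smul, inv_mul_cancel₀ hne, one_smul]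
      rw [h4, this]
      module
    rw [g1, zero_smul, add_zero] at hg
    have g0 : g 0 = 0 := (smul_eq_zero.mp hg).resolve_right hDy0
    intro i
    fin_cases i
    · exact g0
    · exact g1
    · exact g2
  · push Not at hA
    apply key 0
    intro b hb1 hb2
    have := hA b hb1 hb2
    exact Submodule.span_mono (by simp) this

end Pool.Agent.H66.SO.T.TRI
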