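import Pool.Agent.H66.SO.Stm
import Pool.Agent.Lead.BR.T.CONT
import Pool.Agent.Lead.BR.T.EQV

/-! # SO-TWS (helper31): one-sided to two-sided local symmetry -/

set_option autoImplicit false

namespace Pool.Agent.H66.SO.T.TWS

open Filter Topology
open Pool.Agent.Lead.BR (Tr Sm NF Bo Orth Pairs Hilb)

section
variable {E : Type} [NormedAddCommGroup E] [NormedSpace ℝ E] {D : E → StrongDual ℝ E}

theorem ne_zero_of_near {x x0 : E} {c : ℝ} (h0 : ‖x0‖ = 1) (h : ‖x - x0‖ < c) (hc : c ≤ 1) :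
    x ≠ 0 := by
  rintro rfl
  rw [zero_sub, norm_neg, h0] at h
  linarith

theorem abs_le_norm (hD : NF D) {z : E} (hz : z ≠ 0) (v : E) : |D z v| ≤ ‖v‖ := by
  have h1 := (D z).le_opNorm v
  have h2 := mul_le_mul_of_nonneg_right (hD z hz).1 (norm_nonneg v)
  rw [one_mul] at h2
  rw [Real.norm_eq_abs] at h1
  exact h1.trans h2

theorem unit_near {x x0 : E} {c : ℝ} (h0 : ‖x0‖ = 1) (h : ‖x - x0‖ < c) (hc : c ≤ 1) :
    ‖‖x‖⁻¹ • x‖ = 1 ∧ ‖‖x‖⁻¹ • x - x0‖ < 2 * c := by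
  have hx := ne_zero_of_near h0 h hc
  have hn : 0 < ‖x‖ := norm_pos_iff.2 hx
  have h1 : ‖‖x‖⁻¹ • x‖ = 1 := by
    rw [norm_smul, norm_inv, norm_norm, inv_mul_cancel₀ hn.ne']
  refine ⟨h1, ?_⟩
  have h2 : ‖x‖⁻¹ • x - x0 = (‖x‖⁻¹ - 1) • x + (x - x0) := by
    rw [sub_smul, one_smul]
    abel
  have h3 : ‖(‖x‖⁻¹ - 1) • x‖ = |1 - ‖x‖| := by
    rw [norm_smul, Real.norm_eq_abs]
    have h4 : |‖x‖⁻¹ - 1| * ‖x‖ = |(‖x‖⁻¹ - 1) * ‖x‖| := by
      rw [abs_mul, abs_of_pos hn]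
    rw [h4]
    congr 1
    field_simp
  have h5 : |1 - ‖x‖| ≤ ‖x - x0‖ := by
    rw [← h0, norm_sub_rev]
    exact abs_norm_sub_norm_le x0 x
  calc ‖‖x‖⁻¹ • x - x0‖ ≤ ‖(‖x‖⁻¹ - 1) • x‖ + ‖x - x0‖ := by
        rw [h2]
        exact norm_add_le _ _
    _ ≤ ‖x - x0‖ + ‖x - x0‖ := by
        rw [h3]
        linarith
    _ < 2 * c := by linarith

/-- homogeneity of the one-sided symmetry -/
theorem homog (hS : Sm E) (hD : NF D) {x0 y0 : E} {r c : ℝ} (hL : Loc1 D x0 y0 r) (hc : c ≤ 1)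
    (hcr : 2 * c ≤ r) {x y : E} (hx : ‖x - x0‖ < c) (hy : ‖y - y0‖ < c) (h : D x y = 0) :
    D y x = 0 := by
  obtain ⟨hx1, hy1, -, -, H⟩ := hL
  obtain ⟨a1, a2⟩ := unit_near hx1 hx hc
  obtain ⟨b1, b2⟩ := unit_near hy1 hy hc
  have hx0 := ne_zero_of_near hx1 hx hc
  have hy0 := ne_zero_of_near hy1 hy hc
  have hnx : 0 < ‖x‖⁻¹ := inv_pos.2 (norm_pos_iff.2 hx0)
  have hny : 0 < ‖y‖⁻¹ := inv_pos.2 (norm_pos_iff.2 hy0)
  have hE := (Pool.Agent.Lead.BR.T.EQV.main E D hS hD).2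
  have h1 := H (‖x‖⁻¹ • x) (‖y‖⁻¹ • y) a1 b1 (by linarith) (by linarith) (by
    rw [hE _ _ hnx hx0, map_smul, h, smul_zero])
  rw [hE _ _ hny hy0, map_smul, smul_eq_mul] at h1
  exact (mul_eq_zero.1 h1).resolve_left hnx.ne'

theorem pos_aux (hD : NF D) {x0 e : E} {η : ℝ} (hx : ‖x0‖ = 1) (he : ‖e‖ = 1) (h0 : D x0 e = 0)
    (hη : 0 < η) (hη1 : η < 1) (hne : D (x0 + η • e) e ≠ 0) : 0 < D (x0 + η • e) e := by
  have hx0 : x0 ≠ 0 := by
    rintro rfl
    rw [norm_zero] at hx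
    linarith
  have hz : x0 + η • e ≠ 0 := by
    refine ne_zero_of_near (c := 1) hx ?_ le_rfl
    rw [add_sub_cancel_left, norm_smul, he, mul_one, Real.norm_eq_abs, abs_of_pos hη]
    exact hη1
  have h1 := abs_le_norm hD hx0 (x0 + η • e)
  rw [map_add, map_smul, h0, smul_zero, add_zero, (hD x0 hx0).2, hx, abs_one] at h1
  have h2 := (hD _ hz).2
  rw [map_add, map_smul, smul_eq_mul] at h2
  have h3 := (abs_le.1 (abs_le_norm hD hz x0)).2
  rw [hx] at h3
  have h4 : 0 ≤ η * D (x0 + η • e) e := by linarith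
  have h5 : 0 ≤ D (x0 + η • e) e := by
    by_contra hcon
    push Not at hcon
    have := mul_neg_of_pos_of_neg hη hcon
    linarith
  exact lt_of_le_of_ne h5 (Ne.symm hne)

theorem pos_near (hS : Sm E) (hD : NF D) {x0 e : E} {η : ℝ} (hx : ‖x0‖ = 1) (he : ‖e‖ = 1)
    (hη : 0 < η) (hη1 : η ≤ 1 / 4) (h : 0 < D (x0 + η • e) e) :
    ∃ δ : ℝ, 0 < δ ∧ ∀ x y : E, ‖x - x0‖ < δ → ‖y - e‖ < δ → 0 < D (x + η • y) y := by
  have hz : x0 + η • e ≠ 0 := by
    refine ne_zero_of_near (c := 1) hx ?_ le_rfl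
    rw [add_sub_cancel_left, norm_smul, he, mul_one, Real.norm_eq_abs, abs_of_pos hη]
    linarith
  obtain ⟨δ1, hδ1, H⟩ := Pool.Agent.Lead.BR.T.CON.main E D hS hD (x0 + η • e) e hz
    (D (x0 + η • e) e / 2) (by linarith)
  refine ⟨min (δ1 / 2) (min (1 / 4) (D (x0 + η • e) e / 2)), by positivity, fun x y hxx hyy => ?_⟩
  have a1 := hxx.trans_le (min_le_left _ _)
  have a2 := hxx.trans_le ((min_le_right _ _).trans (min_le_left _ _))
  have b1 := hyy.trans_le (min_le_left _ _)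
  have b2 := hyy.trans_le ((min_le_right _ _).trans (min_le_left _ _))
  have b3 := hyy.trans_le ((min_le_right _ _).trans (min_le_right _ _))
  have hd : x + η • y - (x0 + η • e) = (x - x0) + η • (y - e) := by
    rw [smul_sub]
    abel
  have h1 : ‖x + η • y - (x0 + η • e)‖ ≤ ‖x - x0‖ + η * ‖y - e‖ := by
    rw [hd]
    refine (norm_add_le _ _).trans (le_of_eq ?_)
    rw [norm_smul, Real.norm_eq_abs, abs_of_pos hη]
  have hny := norm_nonneg (y - e)
  have h2 : η * ‖y - e‖ ≤ ‖y - e‖ := by nlinarith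
  have h3 := H (x + η • y) (by linarith)
  have hw : x + η • y ≠ 0 := by
    refine ne_zero_of_near (x0 := x0) (c := 1) hx ?_ le_rfl
    have h4 : x + η • y - x0 = (x + η • y - (x0 + η • e)) + η • e := by abel
    rw [h4]
    refine lt_of_le_of_lt (norm_add_le _ _) ?_
    rw [norm_smul η e, he, mul_one, Real.norm_eq_abs, abs_of_pos hη]
    linarith
  have h5 := (abs_lt.1 h3).1
  have h6 := (abs_le.1 (abs_le_norm hD hw (y - e))).1
  rw [map_sub] at h6
  linarith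

end

theorem main : S_TWS := by
  intro E _ _ D hS hD x0 y0 r hL
  obtain ⟨hx1, hy1, hxy, hr, H⟩ := id hL
  obtain ⟨c, hc⟩ : ∃ c : ℝ, c = min (r / 2) (1 / 2) := ⟨_, rfl⟩
  have hc0 : 0 < c := by rw [hc]; positivity
  have hc1 : c ≤ 1 / 2 := by rw [hc]; exact min_le_right _ _
  have hc2 : 2 * c ≤ r := by
    have : c ≤ r / 2 := by rw [hc]; exact min_le_left _ _
    linarith
  have G : ∀ x y : E, ‖x - x0‖ < c → ‖y - y0‖ < c → D x y = 0 → D y x = 0 :=
    fun x y hx hy h => homog hS hD hL (by linarith) hc2 hx hy h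
  have hy0 : y0 ≠ 0 := by
    rintro rfl
    rw [norm_zero] at hy1
    linarith
  have hyx : D y0 x0 = 0 := G x0 y0 (by rw [sub_self, norm_zero]; exact hc0)
    (by rw [sub_self, norm_zero]; exact hc0) hxy
  obtain ⟨η, hη⟩ : ∃ η : ℝ, η = c / 4 := ⟨_, rfl⟩
  have hη0 : 0 < η := by rw [hη]; positivity
  have hη1 : η ≤ 1 / 8 := by rw [hη]; linarith
  have hcross : ∀ t : ℝ, |t| ≤ η → D (x0 + t • y0) y0 = 0 → t = 0 := by
    intro t ht h
    have h1 : ‖x0 + t • y0 - x0‖ < c := by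
      rw [add_sub_cancel_left, norm_smul, hy1, mul_one, Real.norm_eq_abs]
      linarith
    have h2 := G _ _ h1 (by rw [sub_self, norm_zero]; exact hc0) h
    rw [map_add, map_smul, hyx, (hD y0 hy0).2, hy1, zero_add, smul_eq_mul, mul_one] at h2
    exact h2
  have hp : 0 < D (x0 + η • y0) y0 :=
    pos_aux hD hx1 hy1 hxy hη0 (by linarith) fun h => by
      have := hcross η (by rw [abs_of_pos hη0]) h
      linarith
  have hm : 0 < D (x0 + η • (-y0)) (-y0) :=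
    pos_aux hD hx1 (by rw [norm_neg, hy1]) (by rw [map_neg, hxy, neg_zero]) hη0 (by linarith)
      fun h => by
      rw [map_neg, neg_eq_zero, smul_neg, ← neg_smul] at h
      have := hcross (-η) (by rw [abs_neg, abs_of_pos hη0]) h
      linarith
  obtain ⟨δ1, hδ1, H1⟩ := pos_near hS hD hx1 hy1 hη0 (by linarith) hp
  obtain ⟨δ2, hδ2, H2⟩ := pos_near hS hD hx1 (by rw [norm_neg, hy1]) hη0 (by linarith) hm
  obtain ⟨δ, hδ⟩ : ∃ δ : ℝ, δ = min (min δ1 δ2) (min (c / 2) (1 / 4)) := ⟨_, rfl⟩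
  have hδ0 : 0 < δ := by rw [hδ]; positivity
  have e1 : δ ≤ δ1 := by rw [hδ]; exact (min_le_left _ _).trans (min_le_left _ _)
  have e2 : δ ≤ δ2 := by rw [hδ]; exact (min_le_left _ _).trans (min_le_right _ _)
  have e3 : δ ≤ c / 2 := by rw [hδ]; exact (min_le_right _ _).trans (min_le_left _ _)
  have e4 : δ ≤ 1 / 4 := by rw [hδ]; exact (min_le_right _ _).trans (min_le_right _ _)
  refine ⟨δ, hx1, hy1, hxy, hyx, hδ0, e4, fun x y hx hy => ⟨G x y (by linarith) (by linarith), ?_⟩⟩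
  intro h
  have hyne : y ≠ 0 := ne_zero_of_near hy1 hy (by linarith)
  have hyn : ‖y‖ ≤ 5 / 4 := by
    have h1 : ‖y‖ ≤ ‖y - y0‖ + ‖y0‖ := by
      have := norm_add_le (y - y0) y0
      rwa [sub_add_cancel] at this
    linarith
  have hnear : ∀ t : ℝ, |t| ≤ η → ‖x + t • y - x0‖ < c := by
    intro t ht
    have h1 : x + t • y - x0 = (x - x0) + t • y := by abel
    rw [h1]
    refine lt_of_le_of_lt (norm_add_le _ _) ?_
    rw [norm_smul, Real.norm_eq_abs]
    have h2 : |t| * ‖y‖ ≤ η * (5 / 4) := mul_le_mul ht hyn (norm_nonneg _) hη0.le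
    linarith
  have hpos := H1 x y (by linarith) (by linarith)
  have hneg := H2 x (-y) (by linarith) (by
    have : -y - -y0 = -(y - y0) := by abel
    rw [this, norm_neg]
    linarith)
  rw [map_neg, smul_neg, ← neg_smul] at hneg
  have hcont : ContinuousOn (fun t : ℝ => D (x + t • y) y) (Set.Icc (-η) η) := by
    intro t ht
    have ht' : |t| ≤ η := abs_le.2 ht
    have hne : x + t • y ≠ 0 := ne_zero_of_near hx1 (hnear t ht') (by linarith)
    refine ContinuousAt.continuousWithinAt ?_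
    have h1 : ContinuousAt (fun z : E => D z y) (x + t • y) := by
      rw [Metric.continuousAt_iff]
      intro ε hε
      obtain ⟨d, hd, hd'⟩ := Pool.Agent.Lead.BR.T.CON.main E D hS hD (x + t • y) y hne ε hε
      refine ⟨d, hd, fun z hz => ?_⟩
      rw [Real.dist_eq]
      exact hd' z (by rwa [← dist_eq_norm])
    exact ContinuousAt.comp (f := fun s : ℝ => x + s • y) (g := fun z : E => D z y) h1
      (by fun_prop)
  have hiv := intermediate_value_Icc (by linarith : -η ≤ η) hcont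
  obtain ⟨t, ht, ht0⟩ := hiv ⟨by linarith, hpos.le⟩
  simp only at ht0
  have h2 := G _ _ (hnear t (abs_le.2 ht)) (by linarith) ht0
  rw [map_add, map_smul, h, (hD y hyne).2, zero_add, smul_eq_mul] at h2
  have h3 : t = 0 := (mul_eq_zero.1 h2).resolve_right (norm_ne_zero_iff.2 hyne)
  rw [h3, zero_smul, add_zero] at ht0
  exact ht0

end Pool.Agent.H66.SO.T.TWS
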