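import Pool.Agent.H66.SO.Stm
import Pool.Agent.Lead.BR.T.EQV

set_option autoImplicit false

namespace Pool.Agent.H66.SO.T.ADD

open Pool.Agent.Lead.BR (Tr Sm NF Bo Orth Pairs Hilb)

/-- (the span property is not needed) -/
theorem main : S_ADD := by
  intro E _ _ D hS hD x0 y0 δ hL hPos b p q x1 hb hp hq hx1 hbx hpx hqx hli r1 r2 hR1 hR2
  obtain ⟨-, hy0, -, -, hδ0, hδ4, -⟩ := hL
  obtain ⟨hr1, c1, hc1, hD1⟩ := hR1
  obtain ⟨hr2, c2, hc2, hD2⟩ := hR2
  have hE := (Pool.Agent.Lead.BR.T.EQV.main E D hS hD).2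
  have hind : ∀ x y z : ℝ, x • D b + y • D p + z • D q = 0 → x = 0 ∧ y = 0 ∧ z = 0 := by
    intro x y z h
    have h1 := Fintype.linearIndependent_iff.1 hli ![x, y, z]
      (by rw [Fin.sum_univ_three]; exact h)
    exact ⟨h1 0, h1 1, h1 2⟩
  -- halves
  have hhalf : ∀ u v : E, ‖u - y0‖ < δ → ‖v - y0‖ < δ →
      ‖(1 / 2 : ℝ) • (u + v) - y0‖ < δ ∧ D ((1 / 2 : ℝ) • (u + v)) = D (u + v) := by
    intro u v hu hv
    have e1 : (1 / 2 : ℝ) • (u + v) - y0 = (1 / 2 : ℝ) • ((u - y0) + (v - y0)) := by module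
    have h1 : ‖(1 / 2 : ℝ) • (u + v) - y0‖ < δ := by
      rw [e1, norm_smul, Real.norm_of_nonneg (by norm_num)]
      have := norm_add_le (u - y0) (v - y0)
      linarith
    refine ⟨h1, ?_⟩
    apply hE _ _ (by norm_num)
    intro h0
    rw [h0, smul_zero, zero_sub, norm_neg, hy0] at h1
    linarith
  obtain ⟨n1, e1⟩ := hhalf b p hb hp
  obtain ⟨n2, e2⟩ := hhalf b q hb hq
  obtain ⟨n3, e3⟩ := hhalf p q hp hq
  -- the pair (p, q)
  obtain ⟨α, β, hα, hβ, hpq⟩ := hPos p q x1 hp hq hx1 hpx hqx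
    (LinearIndependent.pair_iff.2 fun s t h => by
      have := hind 0 s t (by rw [zero_smul, zero_add]; exact h)
      exact ⟨this.2.1, this.2.2⟩) 1 1 one_pos one_pos
  rw [one_smul, one_smul] at hpq
  -- the three decompositions
  obtain ⟨A, B, hA, hB, h1⟩ := hPos ((1 / 2 : ℝ) • (b + p)) q x1 n1 hq hx1
    (by rw [e1, hD1]; show c1 * (D b x1 + r1 * D p x1) = 0; rw [hbx, hpx]; ring) hqx
    (LinearIndependent.pair_iff.2 fun s t h => by
      rw [e1, hD1] at h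
      have h2 := hind (s * c1) (s * c1 * r1) t (by rw [← h]; module)
      exact ⟨(mul_eq_zero.1 h2.1).resolve_right hc1.ne', h2.2.2⟩) 2 1 two_pos one_pos
  obtain ⟨A', B', hA', hB', h2⟩ := hPos ((1 / 2 : ℝ) • (b + q)) p x1 n2 hp hx1
    (by rw [e2, hD2]; show c2 * (D b x1 + r2 * D q x1) = 0; rw [hbx, hqx]; ring) hpx
    (LinearIndependent.pair_iff.2 fun s t h => by
      rw [e2, hD2] at h
      have h2 := hind (s * c2) t (s * c2 * r2) (by rw [← h]; module)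
      exact ⟨(mul_eq_zero.1 h2.1).resolve_right hc2.ne', h2.2.1⟩) 2 1 two_pos one_pos
  obtain ⟨A₂, B₂, hA₂, hB₂, h3⟩ := hPos b ((1 / 2 : ℝ) • (p + q)) x1 hb n3 hx1 hbx
    (by rw [e3, hpq]; show α * D p x1 + β * D q x1 = 0; rw [hpx, hqx]; ring)
    (LinearIndependent.pair_iff.2 fun s t h => by
      rw [e3, hpq] at h
      have h2 := hind s (t * α) (t * β) (by rw [← h]; module)
      exact ⟨h2.1, (mul_eq_zero.1 h2.2.1).resolve_right hα.ne'⟩) 1 2 one_pos two_pos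
  rw [e1, hD1] at h1
  rw [e2, hD2] at h2
  rw [e3] at h3
  have s1 : (2 : ℝ) • ((1 / 2 : ℝ) • (b + p)) + (1 : ℝ) • q = b + (p + q) := by module
  have s2 : (2 : ℝ) • ((1 / 2 : ℝ) • (b + q)) + (1 : ℝ) • p = b + (p + q) := by module
  have s3 : (1 : ℝ) • b + (2 : ℝ) • ((1 / 2 : ℝ) • (p + q)) = b + (p + q) := by module
  rw [s1] at h1
  rw [s2] at h2
  rw [s3] at h3
  have k1 := hind (A * c1 - A₂) (A * c1 * r1 - B₂ * α) (B - B₂ * β) (by
    have : (A * c1 - A₂) • D b + (A * c1 * r1 - B₂ * α) • D p + (B - B₂ * β) • D q =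
        (A • c1 • (D b + r1 • D p) + B • D q) - (A₂ • D b + B₂ • (α • D p + β • D q)) := by
      module
    rw [this, ← h1, ← hpq, ← h3, sub_self])
  have k2 := hind (A' * c2 - A₂) (B' - B₂ * α) (A' * c2 * r2 - B₂ * β) (by
    have : (A' * c2 - A₂) • D b + (B' - B₂ * α) • D p + (A' * c2 * r2 - B₂ * β) • D q =
        (A' • c2 • (D b + r2 • D q) + B' • D p) - (A₂ • D b + B₂ • (α • D p + β • D q)) := by
      module
    rw [this, ← h2, ← hpq, ← h3, sub_self])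
  obtain ⟨k11, k12, -⟩ := k1
  obtain ⟨k21, -, k23⟩ := k2
  have t1 : A₂ * r1 = B₂ * α := by
    have : A * c1 = A₂ := by linarith
    rw [← this]; linarith
  have t2 : A₂ * r2 = B₂ * β := by
    have : A' * c2 = A₂ := by linarith
    rw [← this]; linarith
  have u1 : B₂ / A₂ * α = r1 := by
    rw [div_mul_eq_mul_div, ← t1]
    field_simp
  have u2 : B₂ / A₂ * β = r2 := by
    rw [div_mul_eq_mul_div, ← t2]
    field_simp
  refine ⟨B₂ / A₂, ⟨div_pos hB₂ hA₂, A₂, hA₂, ?_⟩, ?_⟩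
  · rw [h3, smul_add, smul_smul, mul_div_cancel₀ _ hA₂.ne']
  · rw [hpq, smul_add, smul_smul, smul_smul, u1, u2]

end Pool.Agent.H66.SO.T.ADD
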